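import Mathlib

set_option autoImplicit false

namespace Q217.Poly

/-- A marginal scenario on `Fin n`: a family of subsets closed under taking subsets and
containing the empty set. -/
structure Scenario (n : ℕ) where
  mem : Finset (Fin n) → Prop
  down : ∀ S T : Finset (Fin n), mem S → T ⊆ S → mem T
  empty_mem : mem ∅

/-- Facets: inclusion-maximal members. -/
def IsFacet {n : ℕ} (M : Scenario n) (F : Finset (Fin n)) : Prop :=
  M.mem F ∧ ∀ S, M.mem S → F ⊆ S → S = F

/-- Polymatroids on the finite subsets of a type. -/
structure IsPolymatroid {α : Type} [DecidableEq α] (f : Finset α → ℝ) : Prop where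
  empty : f ∅ = 0
  nonneg : ∀ S, 0 ≤ f S
  mono : ∀ S T, S ⊆ T → f S ≤ f T
  submod : ∀ S T, f (S ∪ T) + f (S ∩ T) ≤ f S + f T

/-- Partial polymatroids on a marginal scenario (only the values on members matter). -/
structure IsPartialPolymatroid {n : ℕ} (M : Scenario n) (g : Finset (Fin n) → ℝ) : Prop where
  empty : g ∅ = 0
  nonneg : ∀ S, M.mem S → 0 ≤ g S
  mono : ∀ S T, M.mem T → S ⊆ T → g S ≤ g T
  submod : ∀ S T, M.mem (S ∪ T) → g (S ∪ T) + g (S ∩ T) ≤ g S + g T

/-- A partial polymatroid is non-contextual if some polymatroid on `Fin n` agrees with it on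
all members of the scenario. -/
def NonContextual {n : ℕ} (M : Scenario n) (g : Finset (Fin n) → ℝ) : Prop :=
  ∃ f : Finset (Fin n) → ℝ, IsPolymatroid f ∧ ∀ S, M.mem S → f S = g S

/-- Every partial polymatroid on the scenario is non-contextual. -/
def AllNonContextual {n : ℕ} (M : Scenario n) : Prop :=
  ∀ g : Finset (Fin n) → ℝ, IsPartialPolymatroid M g → NonContextual M g

/-- The running intersection property of a list `F_k, ..., F_1` (written with the last set
first): for `j ≥ 2` some `F_i` with `i < j` contains `F_j ∩ F_i'` for all `i' < j`. -/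
def RunningIntersection {n : ℕ} : List (Finset (Fin n)) → Prop
  | [] => True
  | F :: l => RunningIntersection l ∧ (l = [] ∨ ∃ G ∈ l, ∀ F' ∈ l, F ∩ F' ⊆ G)

/-- Vorob'ev-regular scenarios: the facets can be listed with the running intersection
property. -/
def VorobevRegular {n : ℕ} (M : Scenario n) : Prop :=
  ∃ l : List (Finset (Fin n)), l.Nodup ∧ (∀ F, F ∈ l ↔ IsFacet M F) ∧ RunningIntersection l

end Q217.Poly
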