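import Pool.Agent.Q217.Poly.Defs

set_option autoImplicit false

namespace Q217.Poly

variable {n : ℕ}

theorem pair_comm' (M : Scenario n) {a b : Fin n} (h : M.mem {a, b}) : M.mem {b, a} := by
  rwa [Finset.pair_comm]

/-- Restriction of a scenario to the subsets of `W`. -/
def Scenario.restr (M : Scenario n) (W : Finset (Fin n)) : Scenario n where
  mem S := M.mem S ∧ S ⊆ W
  down S T h hT := ⟨M.down S T h.1 hT, hT.trans h.2⟩
  empty_mem := ⟨M.empty_mem, Finset.empty_subset _⟩

theorem good_restr {M : Scenario n} (hM : AllNonContextual M) (W : Finset (Fin n)) :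
    AllNonContextual (M.restr W) := by
  intro g hg
  have h1 : IsPartialPolymatroid M fun S => g (S ∩ W) := by
    refine ⟨?_, ?_, ?_, ?_⟩
    · simpa using hg.empty
    · intro S hS
      exact hg.nonneg _ ⟨M.down S _ hS Finset.inter_subset_left, Finset.inter_subset_right⟩
    · intro S T hT hST
      exact hg.mono _ _ ⟨M.down T _ hT Finset.inter_subset_left, Finset.inter_subset_right⟩
        (Finset.inter_subset_inter_right hST)
    · intro S T hST
      have e1 : (S ∪ T) ∩ W = (S ∩ W) ∪ (T ∩ W) := Finset.union_inter_distrib_right S T W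
      have e2 : (S ∩ T) ∩ W = (S ∩ W) ∩ (T ∩ W) := by
        ext x
        simp only [Finset.mem_inter]
        tauto
      show g ((S ∪ T) ∩ W) + g ((S ∩ T) ∩ W) ≤ g (S ∩ W) + g (T ∩ W)
      rw [e1, e2]
      refine hg.submod _ _ ⟨?_, ?_⟩
      · rw [← e1]
        exact M.down _ _ hST Finset.inter_subset_left
      · exact Finset.union_subset Finset.inter_subset_right Finset.inter_subset_right
  obtain ⟨f, hf, hfg⟩ := hM _ h1
  refine ⟨f, hf, fun S hS => ?_⟩
  rw [hfg S hS.1]
  show g (S ∩ W) = g S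
  rw [Finset.inter_eq_left.2 hS.2]

/-! ### Hollow simplices -/

theorem no_hollow {M : Scenario n} (hM : AllNonContextual M) {W : Finset (Fin n)}
    (hW : 3 ≤ W.card) (hall : ∀ S, S ⊂ W → M.mem S) : M.mem W := by
  by_contra hWM
  obtain ⟨a, ha, b, hb, hab⟩ : ∃ a ∈ W, ∃ b ∈ W, a ≠ b :=
    Finset.one_lt_card.1 (by omega)
  -- the partial polymatroid
  let g : Finset (Fin n) → ℝ := fun S => ((S ∩ W).card : ℝ) -
    (if a ∈ S ∧ b ∈ S then 1 else 0) - (if S ∩ W = W.erase a then 1 else 0)
  have hproper : ∀ S, M.mem S → S ∩ W ≠ W := by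
    intro S hS h
    exact hWM (M.down S W hS (Finset.inter_eq_right.1 h))
  have hnot : ∀ S, ¬ ((a ∈ S ∧ b ∈ S) ∧ S ∩ W = W.erase a) := by
    rintro S ⟨⟨h1, -⟩, h2⟩
    have : a ∈ S ∩ W := Finset.mem_inter.2 ⟨h1, ha⟩
    rw [h2] at this
    exact Finset.notMem_erase a W this
  have hmono : ∀ S T, M.mem T → S ⊆ T → g S ≤ g T := by
    intro S T hT hST
    have hsub : S ∩ W ⊆ T ∩ W := Finset.inter_subset_inter_right hST
    by_cases he : S ∩ W = T ∩ W
    · have h1 : (a ∈ S ∧ b ∈ S) ↔ (a ∈ T ∧ b ∈ T) := by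
        have h2 : ∀ x ∈ W, x ∈ S ↔ x ∈ T := by
          intro x hx
          constructor
          · exact fun h => hST h
          · intro h
            have : x ∈ T ∩ W := Finset.mem_inter.2 ⟨h, hx⟩
            rw [← he] at this
            exact (Finset.mem_inter.1 this).1
        rw [h2 a ha, h2 b hb]
      show ((S ∩ W).card : ℝ) - _ - _ ≤ ((T ∩ W).card : ℝ) - _ - _
      rw [he]
      simp only [h1]
      exact le_refl _
    · have hlt : (S ∩ W).card + 1 ≤ (T ∩ W).card :=
        Finset.card_lt_card (Finset.ssubset_iff_subset_ne.2 ⟨hsub, he⟩)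
      have hlt' : ((S ∩ W).card : ℝ) + 1 ≤ ((T ∩ W).card : ℝ) := by exact_mod_cast hlt
      have hT2 := hnot T
      show ((S ∩ W).card : ℝ) - _ - _ ≤ ((T ∩ W).card : ℝ) - _ - _
      by_cases c1 : a ∈ T ∧ b ∈ T
      · have c2 : ¬ T ∩ W = W.erase a := fun h => hT2 ⟨c1, h⟩
        rw [if_pos c1, if_neg c2]
        split_ifs <;> linarith
      · rw [if_neg c1]
        split_ifs <;> linarith
  have hpart : IsPartialPolymatroid M g := by
    have h0 : g ∅ = 0 := by
      have h1 : ¬ (∅ : Finset (Fin n)) = W.erase a := by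
        intro h
        have : b ∈ W.erase a := Finset.mem_erase.2 ⟨hab.symm, hb⟩
        rw [← h] at this
        exact Finset.notMem_empty _ this
      simp [g, h1]
    refine ⟨h0, ?_, hmono, ?_⟩
    · intro S hS
      rw [← h0]
      exact hmono ∅ S hS (Finset.empty_subset _)
    · intro S T hST
      have hS : M.mem S := M.down _ _ hST Finset.subset_union_left
      have hT : M.mem T := M.down _ _ hST Finset.subset_union_right
      have e1 : (S ∪ T) ∩ W = (S ∩ W) ∪ (T ∩ W) := Finset.union_inter_distrib_right S T W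
      have e2 : (S ∩ T) ∩ W = (S ∩ W) ∩ (T ∩ W) := by
        ext x
        simp only [Finset.mem_inter]
        tauto
      have hcard : (((S ∪ T) ∩ W).card : ℝ) + ((S ∩ T) ∩ W).card =
          ((S ∩ W).card : ℝ) + (T ∩ W).card := by
        rw [e1, e2]
        exact_mod_cast Finset.card_union_add_card_inter (S ∩ W) (T ∩ W)
      have hu : (if a ∈ S ∧ b ∈ S then (1 : ℝ) else 0) + (if a ∈ T ∧ b ∈ T then 1 else 0) ≤
          (if a ∈ S ∪ T ∧ b ∈ S ∪ T then 1 else 0) +
          (if a ∈ S ∩ T ∧ b ∈ S ∩ T then 1 else 0) := by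
        simp only [Finset.mem_union, Finset.mem_inter]
        by_cases x1 : a ∈ S <;> by_cases x2 : b ∈ S <;> by_cases x3 : a ∈ T <;>
          by_cases x4 : b ∈ T <;> simp [x1, x2, x3, x4]
      have hv : (if S ∩ W = W.erase a then (1 : ℝ) else 0) +
          (if T ∩ W = W.erase a then 1 else 0) ≤
          (if (S ∪ T) ∩ W = W.erase a then 1 else 0) +
          (if (S ∩ T) ∩ W = W.erase a then 1 else 0) := by
        have key : ∀ X : Finset (Fin n), W.erase a ⊆ X → X ⊆ W → X ≠ W → X = W.erase a := by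
          intro X h1 h2 h3
          refine (Finset.eq_of_subset_of_card_le h1 ?_).symm
          have h4 : X.card < W.card :=
            Finset.card_lt_card (Finset.ssubset_iff_subset_ne.2 ⟨h2, h3⟩)
          rw [Finset.card_erase_of_mem ha]
          omega
        by_cases x1 : S ∩ W = W.erase a
        · have h1 : (S ∪ T) ∩ W = W.erase a := by
            refine key _ ?_ Finset.inter_subset_right (hproper _ hST)
            rw [e1, x1]
            exact Finset.subset_union_left
          by_cases x2 : T ∩ W = W.erase a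
          · have h2 : (S ∩ T) ∩ W = W.erase a := by rw [e2, x1, x2, Finset.inter_self]
            rw [if_pos x1, if_pos x2, if_pos h1, if_pos h2]
          · rw [if_pos x1, if_neg x2, if_pos h1]
            split_ifs <;> norm_num
        · by_cases x2 : T ∩ W = W.erase a
          · have h1 : (S ∪ T) ∩ W = W.erase a := by
              refine key _ ?_ Finset.inter_subset_right (hproper _ hST)
              rw [e1, x2]
              exact Finset.subset_union_right
            rw [if_neg x1, if_pos x2, if_pos h1]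
            split_ifs <;> norm_num
          · rw [if_neg x1, if_neg x2]
            split_ifs <;> norm_num
      show (((S ∪ T) ∩ W).card : ℝ) - _ - _ + ((((S ∩ T) ∩ W).card : ℝ) - _ - _) ≤
        ((S ∩ W).card : ℝ) - _ - _ + (((T ∩ W).card : ℝ) - _ - _)
      linarith
  obtain ⟨f, hf, hfg⟩ := hM g hpart
  have hWa : W.erase a ⊂ W := Finset.erase_ssubset ha
  have hWb : W.erase b ⊂ W := Finset.erase_ssubset hb
  have hpair : ({a, b} : Finset (Fin n)) ⊂ W := by
    refine Finset.ssubset_iff_subset_ne.2 ⟨?_, ?_⟩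
    · intro x hx
      rcases Finset.mem_insert.1 hx with h | h
      · rw [h]; exact ha
      · rw [Finset.mem_singleton.1 h]; exact hb
    · intro h
      have := Finset.card_le_two (a := a) (b := b)
      rw [h] at this
      omega
  have hsb : ({b} : Finset (Fin n)) ⊂ W :=
    lt_of_le_of_lt (Finset.singleton_subset_iff.2 (by simp)) hpair
  have g1 : g (W.erase b) = W.card - 1 := by
    have h1 : ¬ (a ∈ W.erase b ∧ b ∈ W.erase b) := fun h => Finset.notMem_erase b W h.2
    have h2 : ¬ W.erase b ∩ W = W.erase a := by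
      intro h
      have : a ∈ W.erase b ∩ W := Finset.mem_inter.2 ⟨Finset.mem_erase.2 ⟨hab, ha⟩, ha⟩
      rw [h] at this
      exact Finset.notMem_erase a W this
    show ((W.erase b ∩ W).card : ℝ) - _ - _ = _
    rw [if_neg h1, if_neg h2, Finset.inter_eq_left.2 (Finset.erase_subset _ _),
      Finset.card_erase_of_mem hb, Nat.cast_sub (by omega)]
    norm_num
  have g2 : g (W.erase a) = W.card - 2 := by
    have h1 : ¬ (a ∈ W.erase a ∧ b ∈ W.erase a) := fun h => Finset.notMem_erase a W h.1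
    have h2 : W.erase a ∩ W = W.erase a := Finset.inter_eq_left.2 (Finset.erase_subset _ _)
    show ((W.erase a ∩ W).card : ℝ) - _ - _ = _
    rw [if_neg h1, if_pos h2, h2, Finset.card_erase_of_mem ha, Nat.cast_sub (by omega)]
    push_cast
    ring
  have g3 : g {a, b} = 1 := by
    have h1 : a ∈ ({a, b} : Finset (Fin n)) ∧ b ∈ ({a, b} : Finset (Fin n)) := by simp
    have h2 : ¬ {a, b} ∩ W = W.erase a := by
      intro h
      have : a ∈ ({a, b} : Finset (Fin n)) ∩ W := Finset.mem_inter.2 ⟨h1.1, ha⟩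
      rw [h] at this
      exact Finset.notMem_erase a W this
    show ((({a, b} : Finset (Fin n)) ∩ W).card : ℝ) - _ - _ = _
    rw [if_pos h1, if_neg h2, Finset.inter_eq_left.2 hpair.subset, Finset.card_pair hab]
    norm_num
  have g4 : g {b} = 1 := by
    have h1 : ¬ (a ∈ ({b} : Finset (Fin n)) ∧ b ∈ ({b} : Finset (Fin n))) := by simp [hab]
    have h2 : ¬ {b} ∩ W = W.erase a := by
      intro h
      have h3 : (({b} : Finset (Fin n)) ∩ W).card ≤ 1 :=
        (Finset.card_le_card Finset.inter_subset_left).trans (by simp)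
      rw [h, Finset.card_erase_of_mem ha] at h3
      omega
    show ((({b} : Finset (Fin n)) ∩ W).card : ℝ) - _ - _ = _
    rw [if_neg h1, if_neg h2, Finset.inter_eq_left.2 hsb.subset, Finset.card_singleton]
    norm_num
  have u1 : W.erase a ∪ {a, b} = W := by
    ext x
    simp only [Finset.mem_union, Finset.mem_erase, Finset.mem_insert, Finset.mem_singleton]
    constructor
    · rintro (h | h | h)
      · exact h.2
      · rw [h]; exact ha
      · rw [h]; exact hb
    · intro h
      by_cases hx : x = a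
      · right; left; exact hx
      · left; exact ⟨hx, h⟩
  have u2 : W.erase a ∩ {a, b} = {b} := by
    ext x
    simp only [Finset.mem_inter, Finset.mem_erase, Finset.mem_insert, Finset.mem_singleton]
    constructor
    · rintro ⟨⟨h1, h2⟩, h3 | h3⟩
      · exact absurd h3 h1
      · exact h3
    · rintro rfl
      exact ⟨⟨hab.symm, hb⟩, Or.inr rfl⟩
  have s1 := hf.submod (W.erase a) {a, b}
  rw [u1, u2] at s1
  have s2 := hf.mono (W.erase b) W (Finset.erase_subset _ _)
  rw [hfg _ (hall _ hWb), g1] at s2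
  rw [hfg _ (hall _ hWa), g2, hfg _ (hall _ hpair), g3, hfg _ (hall _ hsb), g4] at s1
  linarith

/-- Cliques are members. -/
theorem clique_mem {M : Scenario n} (hM : AllNonContextual M) :
    ∀ C : Finset (Fin n), (∀ x ∈ C, ∀ y ∈ C, M.mem {x, y}) → M.mem C := by
  intro C
  induction C using Finset.strongInduction with
  | H C ih =>
    intro hC
    by_cases h3 : 3 ≤ C.card
    · exact no_hollow hM h3 fun S hS => ih S hS fun x hx y hy =>
        hC x (hS.subset hx) y (hS.subset hy)
    · have h4 : C.card = 0 ∨ C.card = 1 ∨ C.card = 2 := by omega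
      rcases h4 with h | h | h
      · rw [Finset.card_eq_zero.1 h]
        exact M.empty_mem
      · obtain ⟨x, rfl⟩ := Finset.card_eq_one.1 h
        have := hC x (by simp) x (by simp)
        rwa [Finset.pair_eq_singleton] at this
      · obtain ⟨x, y, -, rfl⟩ := Finset.card_eq_two.1 h
        exact hC x (by simp) y (by simp)

/-! ### Two ways around a non-adjacent pair -/

theorem submod_aux {P1 P2 P3 P4 Q1 Q2 Q3 Q4 R1 R2 R3 R4 : Prop} [Decidable P1] [Decidable P2]
    [Decidable P3] [Decidable P4] [Decidable (R1 ∧ Q1)] [Decidable (R2 ∧ Q2)]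
    [Decidable (R3 ∧ Q3)] [Decidable (R4 ∧ Q4)]
    (u1 : P3 ↔ P1 ∨ P2) (u2 : P4 → P1 ∧ P2) (v1 : Q3 ↔ Q1 ∨ Q2) (v2 : Q4 → Q1 ∧ Q2)
    (xu : R3 ↔ R1 ∨ R2) (xi : R4 ↔ R1 ∧ R2) (wS : R1 → P1) (wT : R2 → P2) (bS : Q1 → P1)
    (bT : Q2 → P2) (crit : R3 → Q3 → ¬ (R1 ∧ Q1) → ¬ (R2 ∧ Q2) → ¬ P4) :
    (if P3 then (1 : ℝ) else 0) + (if R3 ∧ Q3 then 1 else 0) +
      ((if P4 then 1 else 0) + (if R4 ∧ Q4 then 1 else 0)) ≤
    (if P1 then 1 else 0) + (if R1 ∧ Q1 then 1 else 0) +
      ((if P2 then 1 else 0) + (if R2 ∧ Q2 then 1 else 0)) := by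
  by_cases c1 : P1 <;> by_cases c2 : P2 <;> by_cases c3 : Q1 <;> by_cases c4 : Q2 <;>
    by_cases c5 : R1 <;> by_cases c6 : R2 <;> by_cases c7 : P4 <;> by_cases c8 : Q4 <;>
    simp_all <;> norm_num

theorem no_two_ways {M : Scenario n} (hM : AllNonContextual M) {A B : Finset (Fin n)}
    {x y : Fin n} (hxB : x ∉ B) (hyB : y ∉ B) (hxy : ¬ M.mem {x, y})
    (hAB : ∀ a ∈ A, ∀ b ∈ B, ¬ M.mem {a, b})
    {c : Fin n} (hc : c ∈ B) (hxc : M.mem {x, c})
    (hpath : Relation.ReflTransGen (fun z z' => M.mem {z, z'} ∧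
      ((z ∈ insert x (insert y A) ∧ z' ∈ insert x (insert y A)) ∨
        (z ∈ insert y B ∧ z' ∈ insert y B))) x c) : False := by
  set W : Finset (Fin n) := insert x (insert y (A ∪ B)) with hW
  let g : Finset (Fin n) → ℝ := fun S =>
    (if (∃ z ∈ S, z ∈ W) then 1 else 0) + (if x ∈ S ∧ (∃ z ∈ S, z ∈ B) then 1 else 0)
  have hxW : x ∈ W := by simp [hW]
  have hBW : ∀ z ∈ B, z ∈ W := fun z hz => by simp [hW, hz]
  have hpart : IsPartialPolymatroid M g := by
    refine ⟨by simp [g], ?_, ?_, ?_⟩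
    · intro S _
      show 0 ≤ (if _ then (1 : ℝ) else 0) + (if _ then (1 : ℝ) else 0)
      split_ifs <;> norm_num
    · intro S T _ hST
      have h1 : (∃ z ∈ S, z ∈ W) → ∃ z ∈ T, z ∈ W := fun ⟨z, h1, h2⟩ => ⟨z, hST h1, h2⟩
      have h2 : (x ∈ S ∧ ∃ z ∈ S, z ∈ B) → (x ∈ T ∧ ∃ z ∈ T, z ∈ B) :=
        fun ⟨h0, z, h1, h2⟩ => ⟨hST h0, z, hST h1, h2⟩
      show (if _ then (1 : ℝ) else 0) + (if _ then (1 : ℝ) else 0) ≤
        (if _ then (1 : ℝ) else 0) + (if _ then (1 : ℝ) else 0)
      refine add_le_add ?_ ?_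
      · by_cases c1 : ∃ z ∈ S, z ∈ W
        · rw [if_pos c1, if_pos (h1 c1)]
        · rw [if_neg c1]
          split_ifs <;> norm_num
      · by_cases c1 : x ∈ S ∧ ∃ z ∈ S, z ∈ B
        · rw [if_pos c1, if_pos (h2 c1)]
        · rw [if_neg c1]
          split_ifs <;> norm_num
    · intro S T hST
      -- logical data
      have u1 : (∃ z ∈ S ∪ T, z ∈ W) ↔ (∃ z ∈ S, z ∈ W) ∨ ∃ z ∈ T, z ∈ W := by
        simp only [Finset.mem_union]
        constructor
        · rintro ⟨z, h | h, hz⟩
          · exact Or.inl ⟨z, h, hz⟩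
          · exact Or.inr ⟨z, h, hz⟩
        · rintro (⟨z, h, hz⟩ | ⟨z, h, hz⟩)
          · exact ⟨z, Or.inl h, hz⟩
          · exact ⟨z, Or.inr h, hz⟩
      have u2 : (∃ z ∈ S ∩ T, z ∈ W) → (∃ z ∈ S, z ∈ W) ∧ ∃ z ∈ T, z ∈ W := by
        rintro ⟨z, h, hz⟩
        exact ⟨⟨z, (Finset.mem_inter.1 h).1, hz⟩, ⟨z, (Finset.mem_inter.1 h).2, hz⟩⟩
      have v1 : (∃ z ∈ S ∪ T, z ∈ B) ↔ (∃ z ∈ S, z ∈ B) ∨ ∃ z ∈ T, z ∈ B := by
        simp only [Finset.mem_union]
        constructor
        · rintro ⟨z, h | h, hz⟩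
          · exact Or.inl ⟨z, h, hz⟩
          · exact Or.inr ⟨z, h, hz⟩
        · rintro (⟨z, h, hz⟩ | ⟨z, h, hz⟩)
          · exact ⟨z, Or.inl h, hz⟩
          · exact ⟨z, Or.inr h, hz⟩
      have v2 : (∃ z ∈ S ∩ T, z ∈ B) → (∃ z ∈ S, z ∈ B) ∧ ∃ z ∈ T, z ∈ B := by
        rintro ⟨z, h, hz⟩
        exact ⟨⟨z, (Finset.mem_inter.1 h).1, hz⟩, ⟨z, (Finset.mem_inter.1 h).2, hz⟩⟩
      -- if the union contains `x` and meets `B` then it has nothing else in `W`
      have key : x ∈ S ∪ T → (∃ z ∈ S ∪ T, z ∈ B) → ∀ z ∈ S ∪ T, z ∈ W → z = x ∨ z ∈ B := by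
        rintro hx ⟨b, hb, hbB⟩ z hz hzW
        have hpair : ∀ p ∈ S ∪ T, ∀ q ∈ S ∪ T, M.mem {p, q} := fun p hp q hq =>
          M.down _ _ hST (by
            intro r hr
            rcases Finset.mem_insert.1 hr with h | h
            · rw [h]; exact hp
            · rw [Finset.mem_singleton.1 h]; exact hq)
        rw [hW, Finset.mem_insert, Finset.mem_insert, Finset.mem_union] at hzW
        rcases hzW with h | h | h | h
        · exact Or.inl h
        · exact absurd (hpair x hx y (h ▸ hz)) hxy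
        · exact absurd (hpair z hz b hb) (hAB z h b hbB)
        · exact Or.inr h
      show (if (∃ z ∈ S ∪ T, z ∈ W) then (1 : ℝ) else 0) +
          (if x ∈ S ∪ T ∧ (∃ z ∈ S ∪ T, z ∈ B) then 1 else 0) +
        ((if (∃ z ∈ S ∩ T, z ∈ W) then 1 else 0) +
          (if x ∈ S ∩ T ∧ (∃ z ∈ S ∩ T, z ∈ B) then 1 else 0)) ≤
        (if (∃ z ∈ S, z ∈ W) then 1 else 0) + (if x ∈ S ∧ (∃ z ∈ S, z ∈ B) then 1 else 0) +
        ((if (∃ z ∈ T, z ∈ W) then 1 else 0) + (if x ∈ T ∧ (∃ z ∈ T, z ∈ B) then 1 else 0))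
      have xu : x ∈ S ∪ T ↔ x ∈ S ∨ x ∈ T := Finset.mem_union
      have xi : x ∈ S ∩ T ↔ x ∈ S ∧ x ∈ T := Finset.mem_inter
      have wS : x ∈ S → ∃ z ∈ S, z ∈ W := fun h => ⟨x, h, hxW⟩
      have wT : x ∈ T → ∃ z ∈ T, z ∈ W := fun h => ⟨x, h, hxW⟩
      have bS : (∃ z ∈ S, z ∈ B) → ∃ z ∈ S, z ∈ W := fun ⟨z, h1, h2⟩ => ⟨z, h1, hBW z h2⟩
      have bT : (∃ z ∈ T, z ∈ B) → ∃ z ∈ T, z ∈ W := fun ⟨z, h1, h2⟩ => ⟨z, h1, hBW z h2⟩
      -- the critical case
      have crit : x ∈ S ∪ T → (∃ z ∈ S ∪ T, z ∈ B) → ¬ (x ∈ S ∧ ∃ z ∈ S, z ∈ B) →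
          ¬ (x ∈ T ∧ ∃ z ∈ T, z ∈ B) → ¬ ∃ z ∈ S ∩ T, z ∈ W := by
        rintro h1 h2 h3 h4 ⟨z, hz, hzW⟩
        have hz' := Finset.mem_inter.1 hz
        have h5 := key h1 h2 z (Finset.mem_union_left _ hz'.1) hzW
        rcases h5 with h5 | h5
        · subst h5
          rcases v1.1 h2 with h6 | h6
          · exact h3 ⟨hz'.1, h6⟩
          · exact h4 ⟨hz'.2, h6⟩
        · rcases xu.1 h1 with h6 | h6
          · exact h3 ⟨h6, z, hz'.1, h5⟩
          · exact h4 ⟨h6, z, hz'.2, h5⟩
      exact submod_aux u1 u2 v1 v2 xu xi wS wT bS bT crit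
  obtain ⟨f, hf, hfg⟩ := hM g hpart
  have hone : ∀ z ∈ W, M.mem {z} → f {z} = 1 := by
    intro z hz hzM
    rw [hfg _ hzM]
    have h1 : ∃ w ∈ ({z} : Finset (Fin n)), w ∈ W := ⟨z, by simp, hz⟩
    have h2 : ¬ (x ∈ ({z} : Finset (Fin n)) ∧ ∃ w ∈ ({z} : Finset (Fin n)), w ∈ B) := by
      rintro ⟨h3, w, h4, h5⟩
      rw [Finset.mem_singleton] at h3 h4
      rw [h4, ← h3] at h5
      exact hxB h5
    show (if _ then (1 : ℝ) else 0) + (if _ then (1 : ℝ) else 0) = 1
    rw [if_pos h1, if_neg h2]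
    norm_num
  have hreach : ∀ z, Relation.ReflTransGen (fun z z' => M.mem {z, z'} ∧
      ((z ∈ insert x (insert y A) ∧ z' ∈ insert x (insert y A)) ∨
        (z ∈ insert y B ∧ z' ∈ insert y B))) x z → f {x, z} ≤ 1 := by
    intro z hz
    induction hz with
    | refl =>
      rw [Finset.pair_eq_singleton]
      exact (hone x hxW (M.down _ _ hxc (by simp))).le
    | @tail z z' _ hstep ih =>
      obtain ⟨hm, hcase⟩ := hstep
      have hzW : z ∈ W := by
        rcases hcase with ⟨h, -⟩ | ⟨h, -⟩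
        · simp only [Finset.mem_insert] at h
          rcases h with h | h | h
          · rw [h]; exact hxW
          · simp [hW, h]
          · simp [hW, h]
        · simp only [Finset.mem_insert] at h
          rcases h with h | h
          · simp [hW, h]
          · simp [hW, h]
      have hzM : M.mem {z} := M.down _ _ hm (by simp)
      have hz1 : f {z} = 1 := hone z hzW hzM
      have hpair : f {z, z'} ≤ 1 := by
        rw [hfg _ hm]
        have h2 : ¬ (x ∈ ({z, z'} : Finset (Fin n)) ∧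
            ∃ w ∈ ({z, z'} : Finset (Fin n)), w ∈ B) := by
          rintro ⟨h3, w, h4, h5⟩
          rw [Finset.mem_insert, Finset.mem_singleton] at h3 h4
          have hwx : w ≠ x := fun h => hxB (h ▸ h5)
          have hwy : w ≠ y := fun h => hyB (h ▸ h5)
          rcases hcase with ⟨e1, e2⟩ | ⟨e1, e2⟩
          · have hw : w ∈ insert x (insert y A) := by
              rcases h4 with h | h
              · rw [h]; exact e1
              · rw [h]; exact e2
            simp only [Finset.mem_insert] at hw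
            rcases hw with h | h | h
            · exact hwx h
            · exact hwy h
            · exact hAB w h w h5 (by
                rw [Finset.pair_eq_singleton]
                exact M.down _ _ hm (Finset.singleton_subset_iff.2 (by
                  rw [Finset.mem_insert, Finset.mem_singleton]
                  exact h4)))
          · have hx : x ∈ insert y B := by
              rcases h3 with h | h
              · rw [h]; exact e1
              · rw [h]; exact e2
            rcases Finset.mem_insert.1 hx with h | h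
            · have h6 : M.mem {x} := M.down _ _ hxc (by simp)
              exact hxy (by rw [← h, Finset.pair_eq_singleton]; exact h6)
            · exact hxB h
        show (if _ then (1 : ℝ) else 0) + (if _ then (1 : ℝ) else 0) ≤ 1
        rw [if_neg h2]
        split_ifs <;> norm_num
      have s1 := hf.submod {x, z} {z, z'}
      have s2 := hf.mono {x, z'} ({x, z} ∪ {z, z'}) (by
        intro w hw
        simp only [Finset.mem_insert, Finset.mem_singleton, Finset.mem_union] at hw ⊢
        tauto)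
      have s3 := hf.mono {z} ({x, z} ∩ {z, z'}) (by
        intro w hw
        simp only [Finset.mem_insert, Finset.mem_singleton, Finset.mem_inter] at hw ⊢
        tauto)
      linarith
  have h1 := hreach c hpath
  rw [hfg _ hxc] at h1
  have h2 : ∃ z ∈ ({x, c} : Finset (Fin n)), z ∈ W := ⟨x, by simp, hxW⟩
  have h3 : x ∈ ({x, c} : Finset (Fin n)) ∧ ∃ z ∈ ({x, c} : Finset (Fin n)), z ∈ B :=
    ⟨by simp, c, by simp, hc⟩
  have h4 : g {x, c} = 2 := by
    show (if _ then (1 : ℝ) else 0) + (if _ then (1 : ℝ) else 0) = 2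
    rw [if_pos h2, if_pos h3]
    norm_num
  rw [h4] at h1
  norm_num at h1

end Q217.Poly
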