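import Pool.Agent.Q217.Poly.Defs

set_option autoImplicit false

namespace Q217.Poly

/-! ### Amalgamation of polymatroids -/

theorem amalgam {α : Type} [DecidableEq α] {f1 f2 : Finset α → ℝ} (h1 : IsPolymatroid f1)
    (h2 : IsPolymatroid f2) {E1 E2 : Finset α} (hE1 : ∀ S, f1 S = f1 (S ∩ E1))
    (hE2 : ∀ S, f2 S = f2 (S ∩ E2)) (L : Finset (Finset α)) (h0 : ∅ ∈ L)
    (hcup : ∀ Y ∈ L, ∀ Y' ∈ L, Y ∪ Y' ∈ L) (hcap : ∀ Y ∈ L, ∀ Y' ∈ L, Y ∩ Y' ∈ L)
    (heq : ∀ Y ∈ L, f1 Y = f2 Y)
    (hmod : ∀ Y ∈ L, ∀ Y' ∈ L, f1 (Y ∪ Y') + f1 (Y ∩ Y') = f1 Y + f1 Y')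
    (hcl : ∀ X, X ⊆ E1 ∩ E2 → ∃ Y ∈ L, X ⊆ Y ∧ f1 Y = f1 X ∧ f2 Y = f2 X) :
    ∃ f : Finset α → ℝ, IsPolymatroid f ∧ (∀ S, f S = f (S ∩ (E1 ∪ E2))) ∧
      (∀ S, S ⊆ E1 → f S = f1 S) ∧ (∀ S, S ⊆ E2 → f S = f2 S) := by
  let φ : Finset α → Finset α → ℝ := fun X Y => f1 (X ∪ Y) + f2 (X ∪ Y) - f1 Y
  let f : Finset α → ℝ := fun X => L.inf' ⟨∅, h0⟩ (φ X)
  have hle : ∀ X, ∀ Y ∈ L, f X ≤ φ X Y := fun X Y hY => Finset.inf'_le _ hY
  have hge : ∀ X c, (∀ Y ∈ L, c ≤ φ X Y) → c ≤ f X := fun X c h =>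
    Finset.le_inf' _ _ h
  have hatt : ∀ X, ∃ Y ∈ L, f X = φ X Y := fun X => by
    obtain ⟨Y, hY, h⟩ := Finset.exists_mem_eq_inf' (⟨∅, h0⟩ : L.Nonempty) (φ X)
    exact ⟨Y, hY, h⟩
  have hval1 : ∀ S, S ⊆ E1 → f S = f1 S := by
    intro X hX
    apply le_antisymm
    · obtain ⟨Y, hY, hXY, e1, e2⟩ := hcl (X ∩ E2) (by
        intro x hx
        obtain ⟨hx1, hx2⟩ := Finset.mem_inter.1 hx
        exact Finset.mem_inter.2 ⟨hX hx1, hx2⟩)
      refine (hle X Y hY).trans ?_
      have s1 : f1 (X ∪ Y) + f1 (X ∩ Y) ≤ f1 X + f1 Y := h1.submod X Y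
      have s2 : f1 (X ∩ E2) ≤ f1 (X ∩ Y) := h1.mono _ _ (by
        intro x hx
        exact Finset.mem_inter.2 ⟨(Finset.mem_inter.1 hx).1, hXY hx⟩)
      have s3 : f2 (X ∪ Y) ≤ f2 Y := by
        rw [hE2 (X ∪ Y)]
        apply h2.mono
        intro x hx
        obtain ⟨hx1, hx2⟩ := Finset.mem_inter.1 hx
        rcases Finset.mem_union.1 hx1 with h | h
        · exact hXY (Finset.mem_inter.2 ⟨h, hx2⟩)
        · exact h
      have s4 := heq Y hY
      show f1 (X ∪ Y) + f2 (X ∪ Y) - f1 Y ≤ f1 X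
      linarith
    · apply hge
      intro Y hY
      have s1 : f1 X ≤ f1 (X ∪ Y) := h1.mono _ _ Finset.subset_union_left
      have s2 : f2 Y ≤ f2 (X ∪ Y) := h2.mono _ _ Finset.subset_union_right
      have s4 := heq Y hY
      show f1 X ≤ f1 (X ∪ Y) + f2 (X ∪ Y) - f1 Y
      linarith
  have hval2 : ∀ S, S ⊆ E2 → f S = f2 S := by
    intro X hX
    apply le_antisymm
    · obtain ⟨Y, hY, hXY, e1, e2⟩ := hcl (X ∩ E1) (by
        intro x hx
        obtain ⟨hx1, hx2⟩ := Finset.mem_inter.1 hx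
        exact Finset.mem_inter.2 ⟨hx2, hX hx1⟩)
      refine (hle X Y hY).trans ?_
      have s1 : f2 (X ∪ Y) + f2 (X ∩ Y) ≤ f2 X + f2 Y := h2.submod X Y
      have s2 : f2 (X ∩ E1) ≤ f2 (X ∩ Y) := h2.mono _ _ (by
        intro x hx
        exact Finset.mem_inter.2 ⟨(Finset.mem_inter.1 hx).1, hXY hx⟩)
      have s3 : f1 (X ∪ Y) ≤ f1 Y := by
        rw [hE1 (X ∪ Y)]
        apply h1.mono
        intro x hx
        obtain ⟨hx1, hx2⟩ := Finset.mem_inter.1 hx
        rcases Finset.mem_union.1 hx1 with h | h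
        · exact hXY (Finset.mem_inter.2 ⟨h, hx2⟩)
        · exact h
      have s4 := heq Y hY
      show f1 (X ∪ Y) + f2 (X ∪ Y) - f1 Y ≤ f2 X
      linarith
    · apply hge
      intro Y hY
      have s1 : f2 X ≤ f2 (X ∪ Y) := h2.mono _ _ Finset.subset_union_left
      have s2 : f1 Y ≤ f1 (X ∪ Y) := h1.mono _ _ Finset.subset_union_right
      show f2 X ≤ f1 (X ∪ Y) + f2 (X ∪ Y) - f1 Y
      linarith
  have hmono : ∀ S T, S ⊆ T → f S ≤ f T := by
    intro S T hST
    apply hge
    intro Y hY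
    refine (hle S Y hY).trans ?_
    have s1 := h1.mono (S ∪ Y) (T ∪ Y) (Finset.union_subset_union_left hST)
    have s2 := h2.mono (S ∪ Y) (T ∪ Y) (Finset.union_subset_union_left hST)
    show f1 (S ∪ Y) + f2 (S ∪ Y) - f1 Y ≤ f1 (T ∪ Y) + f2 (T ∪ Y) - f1 Y
    linarith
  have hf0 : f ∅ = 0 := by rw [hval1 ∅ (Finset.empty_subset _), h1.empty]
  refine ⟨f, ⟨hf0, fun S => ?_, hmono, ?_⟩, ?_, hval1, hval2⟩
  · rw [← hf0]
    exact hmono _ _ (Finset.empty_subset _)
  · intro S T
    obtain ⟨Y, hY, eS⟩ := hatt S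
    obtain ⟨Z, hZ, eT⟩ := hatt T
    have a1 := hle (S ∪ T) _ (hcup Y hY Z hZ)
    have a2 := hle (S ∩ T) _ (hcap Y hY Z hZ)
    have m := hmod Y hY Z hZ
    have b1 := h1.submod (S ∪ Y) (T ∪ Z)
    have b2 := h2.submod (S ∪ Y) (T ∪ Z)
    have u : S ∪ T ∪ (Y ∪ Z) = S ∪ Y ∪ (T ∪ Z) := by
      ext x; simp only [Finset.mem_union]; tauto
    have i : S ∩ T ∪ Y ∩ Z ⊆ (S ∪ Y) ∩ (T ∪ Z) := by
      intro x; simp only [Finset.mem_union, Finset.mem_inter]; tauto
    have c1 := h1.mono _ _ i
    have c2 := h2.mono _ _ i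
    rw [eS, eT]
    show f (S ∪ T) + f (S ∩ T) ≤ (f1 (S ∪ Y) + f2 (S ∪ Y) - f1 Y) +
      (f1 (T ∪ Z) + f2 (T ∪ Z) - f1 Z)
    have a1' : f (S ∪ T) ≤ f1 (S ∪ T ∪ (Y ∪ Z)) + f2 (S ∪ T ∪ (Y ∪ Z)) - f1 (Y ∪ Z) := a1
    have a2' : f (S ∩ T) ≤ f1 (S ∩ T ∪ Y ∩ Z) + f2 (S ∩ T ∪ Y ∩ Z) - f1 (Y ∩ Z) := a2
    rw [u] at a1'
    linarith
  · intro S
    apply le_antisymm
    · apply hge
      intro Y hY
      refine (hle S Y hY).trans ?_
      show f1 (S ∪ Y) + f2 (S ∪ Y) - f1 Y ≤
        f1 (S ∩ (E1 ∪ E2) ∪ Y) + f2 (S ∩ (E1 ∪ E2) ∪ Y) - f1 Y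
      have s1 : f1 (S ∪ Y) ≤ f1 (S ∩ (E1 ∪ E2) ∪ Y) := by
        rw [hE1 (S ∪ Y)]
        apply h1.mono
        intro x; simp only [Finset.mem_union, Finset.mem_inter]; tauto
      have s2 : f2 (S ∪ Y) ≤ f2 (S ∩ (E1 ∪ E2) ∪ Y) := by
        rw [hE2 (S ∪ Y)]
        apply h2.mono
        intro x; simp only [Finset.mem_union, Finset.mem_inter]; tauto
      linarith
    · exact hmono _ _ Finset.inter_subset_left

/-! ### Building blocks -/

section Blocks

variable {α : Type} [DecidableEq α]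

theorem IsPolymatroid.add {f g : Finset α → ℝ} (hf : IsPolymatroid f) (hg : IsPolymatroid g) :
    IsPolymatroid fun S => f S + g S := by
  refine ⟨by simp [hf.empty, hg.empty], fun S => add_nonneg (hf.nonneg S) (hg.nonneg S),
    fun S T h => add_le_add (hf.mono S T h) (hg.mono S T h), fun S T => ?_⟩
  have a := hf.submod S T
  have b := hg.submod S T
  linarith

theorem IsPolymatroid.smul {f : Finset α → ℝ} (hf : IsPolymatroid f) {c : ℝ} (hc : 0 ≤ c) :
    IsPolymatroid fun S => c * f S := by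
  refine ⟨by simp [hf.empty], fun S => mul_nonneg hc (hf.nonneg S),
    fun S T h => mul_le_mul_of_nonneg_left (hf.mono S T h) hc, fun S T => ?_⟩
  have a := mul_le_mul_of_nonneg_left (hf.submod S T) hc
  linarith

/-- Whether `S` meets `A`. -/
def hit (A S : Finset α) : ℝ := if Disjoint A S then 0 else 1

theorem hit_poly (A : Finset α) : IsPolymatroid (hit A) := by
  have h01 : ∀ S, 0 ≤ hit A S ∧ hit A S ≤ 1 := by
    intro S
    unfold hit
    split_ifs <;> norm_num
  have hm : ∀ S T, S ⊆ T → hit A S ≤ hit A T := by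
    intro S T h
    unfold hit
    by_cases h1 : Disjoint A T
    · rw [if_pos h1, if_pos (Finset.disjoint_of_subset_right h h1)]
    · rw [if_neg h1]
      split_ifs <;> norm_num
  refine ⟨by simp [hit], fun S => (h01 S).1, hm, fun S T => ?_⟩
  by_cases h1 : Disjoint A S
  · have e1 : hit A (S ∩ T) = 0 :=
      if_pos (Finset.disjoint_of_subset_right Finset.inter_subset_left h1)
    have e2 : hit A (S ∪ T) = hit A T := by
      simp [hit, Finset.disjoint_union_right, h1]
    have := (h01 S).1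
    rw [e1, e2]
    linarith
  · by_cases h2 : Disjoint A T
    · have e1 : hit A (S ∩ T) = 0 :=
        if_pos (Finset.disjoint_of_subset_right Finset.inter_subset_right h2)
      have e2 : hit A (S ∪ T) = hit A S := by
        simp [hit, Finset.disjoint_union_right, h2]
      have := (h01 T).1
      rw [e1, e2]
      linarith
    · have e1 : hit A S = 1 := if_neg h1
      have e2 : hit A T = 1 := if_neg h2
      rw [e1, e2]
      exact add_le_add (h01 _).2 (h01 _).2

/-- The rank function of the uniform matroid of rank two on `F`. -/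
def two (F S : Finset α) : ℝ := ((min 2 (F ∩ S).card : ℕ) : ℝ)

theorem two_poly (F : Finset α) : IsPolymatroid (two F) := by
  refine ⟨by simp [two], fun S => Nat.cast_nonneg _, fun S T h => ?_, fun S T => ?_⟩
  · refine Nat.cast_le.2 (min_le_min_left _ (Finset.card_le_card ?_))
    exact Finset.inter_subset_inter_left h
  · have key := Finset.card_union_add_card_inter (F ∩ S) (F ∩ T)
    rw [← Finset.inter_union_distrib_left, ← Finset.inter_inter_distrib_left] at key
    have a1 : (F ∩ (S ∩ T)).card ≤ (F ∩ S).card := Finset.card_le_card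
      (Finset.inter_subset_inter_left Finset.inter_subset_left)
    have a2 : (F ∩ (S ∩ T)).card ≤ (F ∩ T).card := Finset.card_le_card
      (Finset.inter_subset_inter_left Finset.inter_subset_right)
    unfold two
    rw [← Nat.cast_add, ← Nat.cast_add, Nat.cast_le]
    omega

end Blocks

/-! ### The extended ground set -/

/-- The ground set: the elements of `Fin n`, and one further element for every edge. -/
abbrev Amb (n : ℕ) : Type := Fin n ⊕ Finset (Fin n)

variable {n : ℕ}

/-- The copy of a subset of `Fin n`. -/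
def up (S : Finset (Fin n)) : Finset (Amb n) := S.map Function.Embedding.inl

theorem inl_mem_up {S : Finset (Fin n)} {v : Fin n} : (Sum.inl v : Amb n) ∈ up S ↔ v ∈ S := by
  simp [up]

theorem inr_mem_up {S : Finset (Fin n)} {e : Finset (Fin n)} : (Sum.inr e : Amb n) ∉ up S := by
  simp [up]

/-- The part of the ground set belonging to a facet. -/
def EF (F : Finset (Fin n)) : Finset (Amb n) :=
  up F ∪ (Finset.univ.filter fun e : Finset (Fin n) => F.card = 3 ∧ e ⊆ F ∧ e.card = 2).map
    Function.Embedding.inr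

theorem inl_mem_EF {F : Finset (Fin n)} {v : Fin n} : (Sum.inl v : Amb n) ∈ EF F ↔ v ∈ F := by
  simp [EF, up]

theorem inr_mem_EF {F : Finset (Fin n)} {e : Finset (Fin n)} :
    (Sum.inr e : Amb n) ∈ EF F ↔ F.card = 3 ∧ e ⊆ F ∧ e.card = 2 := by
  simp [EF, up]

/-- The extension has the right values on the facet `F`. -/
structure Good (g : Finset (Fin n) → ℝ) (f : Finset (Amb n) → ℝ) (F : Finset (Fin n)) :
    Prop where
  val : ∀ S, S ⊆ F → f (up S) = g S
  z : F.card = 3 → ∀ a ∈ F, ∀ b ∈ F, a ≠ b →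
    f {Sum.inr {a, b}} = g {a} + g {b} - g {a, b} ∧ f {Sum.inl a, Sum.inr {a, b}} = g {a}

theorem Good.congr {g : Finset (Fin n) → ℝ} {f f' : Finset (Amb n) → ℝ} {F : Finset (Fin n)}
    (h : Good g f F) (hff : ∀ S, S ⊆ EF F → f' S = f S) : Good g f' F := by
  refine ⟨fun S hS => ?_, fun hF a ha b hb hab => ?_⟩
  · rw [hff _ (fun x hx => ?_), h.val S hS]
    rcases x with v | e
    · exact inl_mem_EF.2 (hS (inl_mem_up.1 hx))
    · exact absurd hx inr_mem_up
  · have hz : (Sum.inr {a, b} : Amb n) ∈ EF F := inr_mem_EF.2 ⟨hF, by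
      intro z hz
      rcases Finset.mem_insert.1 hz with h | h
      · rw [h]; exact ha
      · rw [Finset.mem_singleton.1 h]; exact hb, Finset.card_pair hab⟩
    rw [hff _ (Finset.singleton_subset_iff.2 hz), hff _ (by
      intro x hx
      rcases Finset.mem_insert.1 hx with h | h
      · rw [h]; exact inl_mem_EF.2 ha
      · rw [Finset.mem_singleton.1 h]; exact hz)]
    exact h.z hF a ha b hb hab

theorem pair_inter {x y c : Fin n} (hxy : x ≠ y) (hx : x ≠ c) (hy : y ≠ c) :
    ({x, c} : Finset (Fin n)) ∩ {y, c} = {c} := by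
  ext z
  simp only [Finset.mem_inter, Finset.mem_insert, Finset.mem_singleton]
  constructor
  · rintro ⟨h1 | h1, h2 | h2⟩
    · exact absurd (h1.symm.trans h2) hxy
    · exact h2
    · exact h1
    · exact h1
  · rintro rfl
    simp

/-- Triangles. -/
theorem triangle {M : Scenario n} {g : Finset (Fin n) → ℝ} (hg : IsPartialPolymatroid M g)
    {a b c : Fin n} (hab : a ≠ b) (hac : a ≠ c) (hbc : b ≠ c) (hM : M.mem {a, b, c}) :
    ∃ f : Finset (Amb n) → ℝ, IsPolymatroid f ∧ (∀ S, f S = f (S ∩ EF {a, b, c})) ∧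
      Good g f {a, b, c} := by
  have hsub : ∀ S : Finset (Fin n), S ⊆ {a, b, c} → M.mem S := fun S hS => M.down _ _ hM hS
  have hba := hab.symm
  have hca := hac.symm
  have hcb := hbc.symm
  have n1 : ({a, b} : Finset (Fin n)) ≠ {a, c} := fun h => by
    have : b ∈ ({a, c} : Finset (Fin n)) := h ▸ (by simp)
    simp [*] at this
  have n2 : ({a, b} : Finset (Fin n)) ≠ {b, c} := fun h => by
    have : a ∈ ({b, c} : Finset (Fin n)) := h ▸ (by simp)
    simp [*] at this
  have n3 : ({a, c} : Finset (Fin n)) ≠ {b, c} := fun h => by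
    have : a ∈ ({b, c} : Finset (Fin n)) := h ▸ (by simp)
    simp [*] at this
  have n1' := n1.symm
  have n2' := n2.symm
  have n3' := n3.symm
  -- submodularity
  have uac : ({a, c} : Finset (Fin n)) ∪ {b, c} = {a, b, c} := by ext x; simp; tauto
  have iac : ({a, c} : Finset (Fin n)) ∩ {b, c} = {c} := pair_inter hab hac hbc
  have uab : ({a, b} : Finset (Fin n)) ∪ {b, c} = {a, b, c} := by ext x; simp; try tauto
  have iab : ({a, b} : Finset (Fin n)) ∩ {b, c} = {b} := by
    rw [Finset.pair_comm b c]; exact pair_inter hac hab hcb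
  have ucb : ({a, b} : Finset (Fin n)) ∪ {a, c} = {a, b, c} := by ext x; simp; try tauto
  have icb : ({a, b} : Finset (Fin n)) ∩ {a, c} = {a} := by
    rw [Finset.pair_comm a b, Finset.pair_comm a c]; exact pair_inter hbc hba hca
  have q1 := hg.submod {a, c} {b, c} (by rw [uac]; exact hM)
  have q2 := hg.submod {a, b} {b, c} (by rw [uab]; exact hM)
  have q3 := hg.submod {a, b} {a, c} (by rw [ucb]; exact hM)
  rw [uac, iac] at q1
  rw [uab, iab] at q2
  rw [ucb, icb] at q3
  have r1 := hg.submod {a} {b} (hsub _ (by intro x; simp; tauto))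
  have r2 := hg.submod {a} {c} (hsub _ (by intro x; simp; tauto))
  have r3 := hg.submod {b} {c} (hsub _ (by intro x; simp; tauto))
  rw [show ({a} : Finset (Fin n)) ∪ {b} = {a, b} by ext x; simp,
    Finset.singleton_inter_of_notMem (by simpa using hab), hg.empty] at r1
  rw [show ({a} : Finset (Fin n)) ∪ {c} = {a, c} by ext x; simp,
    Finset.singleton_inter_of_notMem (by simpa using hac), hg.empty] at r2
  rw [show ({b} : Finset (Fin n)) ∪ {c} = {b, c} by ext x; simp,
    Finset.singleton_inter_of_notMem (by simpa using hbc), hg.empty] at r3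
  have m1 := hg.mono {b, c} {a, b, c} hM (by intro x; simp; tauto)
  have m2 := hg.mono {a, c} {a, b, c} hM (by intro x; simp; tauto)
  have m3 := hg.mono {a, b} {a, b, c} hM (by intro x; simp; tauto)
  set J : ℝ := g {a} + g {b} + g {c} - g {a, b} - g {a, c} - g {b, c} + g {a, b, c} with hJ
  obtain ⟨mu, nu, hmu, hnu, hmn, hor⟩ : ∃ mu nu : ℝ, 0 ≤ mu ∧ 0 ≤ nu ∧ nu - mu = J ∧
      (mu = 0 ∨ nu = 0) := by
    rcases le_total 0 J with h | h
    · exact ⟨0, J, le_rfl, h, by ring, Or.inl rfl⟩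
    · exact ⟨-J, 0, by linarith, le_rfl, by ring, Or.inr rfl⟩
  set lab : ℝ := g {a, c} + g {b, c} - g {c} - g {a, b, c} - mu with hlab
  set lac : ℝ := g {a, b} + g {b, c} - g {b} - g {a, b, c} - mu with hlac
  set lbc : ℝ := g {a, b} + g {a, c} - g {a} - g {a, b, c} - mu with hlbc
  set la : ℝ := g {a, b, c} - g {b, c} with hla
  set lb : ℝ := g {a, b, c} - g {a, c} with hlb
  set lc : ℝ := g {a, b, c} - g {a, b} with hlc
  have pab : 0 ≤ lab := by rcases hor with h | h <;> rw [hlab] <;> linarith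
  have pac : 0 ≤ lac := by rcases hor with h | h <;> rw [hlac] <;> linarith
  have pbc : 0 ≤ lbc := by rcases hor with h | h <;> rw [hlbc] <;> linarith
  let Xa : Finset (Amb n) := {Sum.inl a}
  let Xb : Finset (Amb n) := {Sum.inl b}
  let Xc : Finset (Amb n) := {Sum.inl c}
  let Xab : Finset (Amb n) := {Sum.inl a, Sum.inl b, Sum.inr {a, b}}
  let Xac : Finset (Amb n) := {Sum.inl a, Sum.inl c, Sum.inr {a, c}}
  let Xbc : Finset (Amb n) := {Sum.inl b, Sum.inl c, Sum.inr {b, c}}
  let Xabc : Finset (Amb n) := {Sum.inl a, Sum.inl b, Sum.inl c, Sum.inr {a, b}, Sum.inr {a, c},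
    Sum.inr {b, c}}
  let X3 : Finset (Amb n) := {Sum.inl a, Sum.inl b, Sum.inl c}
  let f : Finset (Amb n) → ℝ := fun S => la * hit Xa S + lb * hit Xb S + lc * hit Xc S +
    lab * hit Xab S + lac * hit Xac S + lbc * hit Xbc S + nu * hit Xabc S + mu * two X3 S
  have hf : IsPolymatroid f :=
    ((((((((hit_poly Xa).smul (by linarith)).add ((hit_poly Xb).smul (by linarith))).add
      ((hit_poly Xc).smul (by linarith))).add ((hit_poly Xab).smul pab)).add
      ((hit_poly Xac).smul pac)).add ((hit_poly Xbc).smul pbc)).add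
      ((hit_poly Xabc).smul hnu)).add ((two_poly X3).smul hmu)
  have hcard3 : ({a, b, c} : Finset (Fin n)).card = 3 := Finset.card_eq_three.2
    ⟨a, b, c, hab, hac, hbc, rfl⟩
  have hXE : ∀ X : Finset (Amb n), X ⊆ Xabc → X ⊆ EF {a, b, c} := by
    intro X hX
    refine hX.trans ?_
    intro x hx
    simp only [Xabc, Finset.mem_insert, Finset.mem_singleton] at hx
    rcases hx with h | h | h | h | h | h <;> rw [h]
    · exact inl_mem_EF.2 (by simp)
    · exact inl_mem_EF.2 (by simp)
    · exact inl_mem_EF.2 (by simp)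
    · exact inr_mem_EF.2 ⟨hcard3, by intro x; simp; tauto, Finset.card_pair hab⟩
    · exact inr_mem_EF.2 ⟨hcard3, by intro x; simp; tauto, Finset.card_pair hac⟩
    · exact inr_mem_EF.2 ⟨hcard3, by intro x; simp; tauto, Finset.card_pair hbc⟩
  have hitE : ∀ X S : Finset (Amb n), X ⊆ Xabc → hit X (S ∩ EF {a, b, c}) = hit X S := by
    intro X S hX
    have : Disjoint X (S ∩ EF {a, b, c}) ↔ Disjoint X S := by
      constructor
      · intro h
        rw [Finset.disjoint_left] at h ⊢
        intro x hx hxS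
        exact h hx (Finset.mem_inter.2 ⟨hxS, hXE X hX hx⟩)
      · exact fun h => Finset.disjoint_of_subset_right Finset.inter_subset_left h
    simp only [hit, this]
  have hres : ∀ S, f S = f (S ∩ EF {a, b, c}) := by
    intro S
    have t : two X3 (S ∩ EF {a, b, c}) = two X3 S := by
      have : X3 ∩ (S ∩ EF {a, b, c}) = X3 ∩ S := by
        ext x
        simp only [Finset.mem_inter]
        constructor
        · rintro ⟨h1, h2, _⟩
          exact ⟨h1, h2⟩
        · rintro ⟨h1, h2⟩
          exact ⟨h1, h2, hXE X3 (by intro y; simp [X3, Xabc]; tauto) h1⟩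
      simp only [two, this]
    show _ = la * hit Xa (S ∩ EF {a, b, c}) + lb * hit Xb (S ∩ EF {a, b, c}) +
      lc * hit Xc (S ∩ EF {a, b, c}) + lab * hit Xab (S ∩ EF {a, b, c}) +
      lac * hit Xac (S ∩ EF {a, b, c}) + lbc * hit Xbc (S ∩ EF {a, b, c}) +
      nu * hit Xabc (S ∩ EF {a, b, c}) + mu * two X3 (S ∩ EF {a, b, c})
    rw [t, hitE Xa S (by intro y; simp [Xa, Xabc]; try tauto),
      hitE Xb S (by intro y; simp [Xb, Xabc]; try tauto),
      hitE Xc S (by intro y; simp [Xc, Xabc]; try tauto),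
      hitE Xab S (by intro y; simp [Xab, Xabc]; try tauto),
      hitE Xac S (by intro y; simp [Xac, Xabc]; try tauto),
      hitE Xbc S (by intro y; simp [Xbc, Xabc]; try tauto),
      hitE Xabc S (Finset.Subset.refl _)]
  -- evaluation through membership
  let ev : Bool → Bool → Bool → Bool → Bool → Bool → ℝ := fun x y z u v w =>
    la * (bif x then 1 else 0) + lb * (bif y then 1 else 0) + lc * (bif z then 1 else 0) +
    lab * (bif x || y || u then 1 else 0) + lac * (bif x || z || v then 1 else 0) +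
    lbc * (bif y || z || w then 1 else 0) +
    nu * (bif x || y || z || u || v || w then 1 else 0) +
    mu * ((bif x || y || z then 1 else 0) +
      (bif (x && y) || (x && z) || (y && z) then 1 else 0))
  have hev : ∀ S : Finset (Amb n), f S = ev (decide (Sum.inl a ∈ S)) (decide (Sum.inl b ∈ S))
      (decide (Sum.inl c ∈ S)) (decide (Sum.inr {a, b} ∈ S)) (decide (Sum.inr {a, c} ∈ S))
      (decide (Sum.inr {b, c} ∈ S)) := by
    intro S
    have t : (X3 ∩ S).card = (bif decide (Sum.inl a ∈ S) then 1 else 0) +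
        (bif decide (Sum.inl b ∈ S) then 1 else 0) +
        (bif decide (Sum.inl c ∈ S) then 1 else 0) := by
      by_cases h1 : (Sum.inl a : Amb n) ∈ S <;> by_cases h2 : (Sum.inl b : Amb n) ∈ S <;>
        by_cases h3 : (Sum.inl c : Amb n) ∈ S <;>
        simp [X3, h1, h2, h3, Finset.insert_inter_of_mem, Finset.insert_inter_of_notMem,
          Finset.singleton_inter_of_mem, Finset.singleton_inter_of_notMem, *]
    have hh : ∀ X : Finset (Amb n), ∀ β : Bool, ((∃ x ∈ X, x ∈ S) ↔ β = true) →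
        hit X S = bif β then 1 else 0 := by
      intro X β h
      unfold hit
      cases β
      · rw [if_pos]
        · rfl
        · rw [Finset.disjoint_left]
          intro x hx hxS
          exact absurd (h.1 ⟨x, hx, hxS⟩) (by simp)
      · rw [if_neg]
        · rfl
        · rw [Finset.disjoint_left]
          obtain ⟨x, hx, hxS⟩ := h.2 rfl
          exact fun hcon => hcon hx hxS
    show la * hit Xa S + lb * hit Xb S + lc * hit Xc S +
      lab * hit Xab S + lac * hit Xac S + lbc * hit Xbc S + nu * hit Xabc S + mu * two X3 S = _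
    have e1 := hh Xa (decide (Sum.inl a ∈ S)) (by simp [Xa])
    have e2 := hh Xb (decide (Sum.inl b ∈ S)) (by simp [Xb])
    have e3 := hh Xc (decide (Sum.inl c ∈ S)) (by simp [Xc])
    have e4 := hh Xab (decide (Sum.inl a ∈ S) || decide (Sum.inl b ∈ S) ||
      decide (Sum.inr {a, b} ∈ S)) (by simp [Xab, or_assoc])
    have e5 := hh Xac (decide (Sum.inl a ∈ S) || decide (Sum.inl c ∈ S) ||
      decide (Sum.inr {a, c} ∈ S)) (by simp [Xac, or_assoc])
    have e6 := hh Xbc (decide (Sum.inl b ∈ S) || decide (Sum.inl c ∈ S) ||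
      decide (Sum.inr {b, c} ∈ S)) (by simp [Xbc, or_assoc])
    have e7 := hh Xabc (decide (Sum.inl a ∈ S) || decide (Sum.inl b ∈ S) ||
      decide (Sum.inl c ∈ S) || decide (Sum.inr {a, b} ∈ S) || decide (Sum.inr {a, c} ∈ S) ||
      decide (Sum.inr {b, c} ∈ S)) (by simp [Xabc, or_assoc])
    have e8 : two X3 S = ((bif decide (Sum.inl a ∈ S) || decide (Sum.inl b ∈ S) ||
        decide (Sum.inl c ∈ S) then 1 else 0) +
        (bif (decide (Sum.inl a ∈ S) && decide (Sum.inl b ∈ S)) ||
          (decide (Sum.inl a ∈ S) && decide (Sum.inl c ∈ S)) ||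
          (decide (Sum.inl b ∈ S) && decide (Sum.inl c ∈ S)) then 1 else 0) : ℝ) := by
      unfold two
      rw [t]
      cases decide (Sum.inl a ∈ S) <;> cases decide (Sum.inl b ∈ S) <;>
        cases decide (Sum.inl c ∈ S) <;> norm_num
    rw [e1, e2, e3, e4, e5, e6, e7, e8]
  refine ⟨f, hf, hres, ?_, ?_⟩
  · intro S hS
    have hS' : ∀ T : Finset (Fin n), T ⊆ {a, b, c} → (a ∈ S ↔ a ∈ T) → (b ∈ S ↔ b ∈ T) →
        (c ∈ S ↔ c ∈ T) → S = T := by
      intro T hT ha hb hc
      ext x
      constructor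
      · intro hx
        have h3 := hS hx
        simp only [Finset.mem_insert, Finset.mem_singleton] at h3
        rcases h3 with h | h | h <;> rw [h] at hx ⊢
        · exact ha.1 hx
        · exact hb.1 hx
        · exact hc.1 hx
      · intro hx
        have h3 := hT hx
        simp only [Finset.mem_insert, Finset.mem_singleton] at h3
        rcases h3 with h | h | h <;> rw [h] at hx ⊢
        · exact ha.2 hx
        · exact hb.2 hx
        · exact hc.2 hx
    rw [hev]
    simp only [inl_mem_up, inr_mem_up, decide_false]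
    by_cases h1 : a ∈ S <;> by_cases h2 : b ∈ S <;> by_cases h3 : c ∈ S
    · rw [hS' {a, b, c} (by simp) (by simp [*]) (by simp [*]) (by simp [*])]
      simp [ev]
      linarith
    · rw [hS' {a, b} (by intro x; simp; tauto) (by simp [*]) (by simp [*]) (by simp [*])]
      simp [ev, *]
      linarith
    · rw [hS' {a, c} (by intro x; simp; tauto) (by simp [*]) (by simp [*]) (by simp [*])]
      simp [ev, *]
      linarith
    · rw [hS' {a} (by intro x; simp; tauto) (by simp [*]) (by simp [*]) (by simp [*])]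
      simp [ev, *]
      linarith
    · rw [hS' {b, c} (by intro x; simp; tauto) (by simp [*]) (by simp [*]) (by simp [*])]
      simp [ev, *]
      linarith
    · rw [hS' {b} (by intro x; simp; tauto) (by simp [*]) (by simp [*]) (by simp [*])]
      simp [ev, *]
      linarith
    · rw [hS' {c} (by intro x; simp; tauto) (by simp [*]) (by simp [*]) (by simp [*])]
      simp [ev, *]
      linarith
    · rw [hS' ∅ (by simp) (by simp [*]) (by simp [*]) (by simp [*])]
      simp [ev, hg.empty]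
  · intro _ x hx y hy hxy
    simp only [Finset.mem_insert, Finset.mem_singleton] at hx hy
    rw [hev, hev]
    rcases hx with rfl | rfl | rfl <;> rcases hy with rfl | rfl | rfl
    · exact absurd rfl hxy
    · simp [ev, *]
      constructor <;> linarith
    · simp [ev, *]
      constructor <;> linarith
    · rw [Finset.pair_comm x y]
      simp [ev, *]
      constructor <;> linarith
    · exact absurd rfl hxy
    · simp [ev, *]
      constructor <;> linarith
    · rw [Finset.pair_comm x y]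
      simp [ev, *]
      constructor <;> linarith
    · rw [Finset.pair_comm x y]
      simp [ev, *]
      constructor <;> linarith
    · exact absurd rfl hxy

end Q217.Poly
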