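import Pool.Agent.Q217.Poly.Neg

set_option autoImplicit false

namespace Q217.Poly

variable {n : ℕ}

/-! ### Facets with a large intersection -/

/-- The rank function used for two facets with a large intersection. -/
def GG (a b c d p : Bool) : ℕ :=
  bif !(a || b || c || d) then (bif p then 1 else 0) else
    bif (c && d) then 4 else
      bif (a && b && (c || d)) then 4 else
        bif ((a && b) || (a && c) || (a && d) || (b && c) || (b && d)) then 3 else 2

theorem GG_mono : ∀ a b c d p a' b' c' d' p' : Bool, (a → a') → (b → b') → (c → c') →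
    (d → d') → (p → p') → GG a b c d p ≤ GG a' b' c' d' p' := by
  decide +kernel

theorem GG_submod : ∀ a b c d p a' b' c' d' p' : Bool,
    ¬ ((p || p') = true ∧ (c || c') = true) →
    GG (a || a') (b || b') (c || c') (d || d') (p || p') +
      GG (a && a') (b && b') (c && c') (d && d') (p && p') ≤
      GG a b c d p + GG a' b' c' d' p' := by
  decide +kernel

theorem sub4 {f : Finset (Fin n) → ℝ} (hf : IsPolymatroid f) {U Z X Y : Finset (Fin n)}
    (hU : U ⊆ X ∪ Y) (hZ : Z ⊆ X ∩ Y) : f U + f Z ≤ f X + f Y :=
  (add_le_add (hf.mono _ _ hU) (hf.mono _ _ hZ)).trans (hf.submod X Y)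

theorem facet_card_le {M : Scenario n} (hM : AllNonContextual M) {F1 F2 : Finset (Fin n)}
    (h1 : IsFacet M F1) (h2 : IsFacet M F2) (hne : F1 ≠ F2) (h : 2 ≤ (F1 ∩ F2).card) :
    F2.card ≤ 3 := by
  by_contra hcard
  rw [not_le] at hcard
  obtain ⟨p, hp1, hp2⟩ : ∃ p ∈ F1, p ∉ F2 := by
    by_contra hcon
    push Not at hcon
    exact hne (h1.2 F2 h2.1 hcon).symm
  have hpm : M.mem {p} := M.down _ _ h1.1 (Finset.singleton_subset_iff.2 hp1)
  obtain ⟨c, hc, hpc⟩ : ∃ c ∈ F2, ¬ M.mem {p, c} := by
    by_contra hcon
    push Not at hcon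
    have hmem : M.mem (insert p F2) := by
      refine clique_mem hM _ fun x hx y hy => ?_
      rcases Finset.mem_insert.1 hx with hx | hx <;> rcases Finset.mem_insert.1 hy with hy | hy
      · rw [hx, hy, Finset.pair_eq_singleton]
        exact hpm
      · rw [hx]
        exact hcon y hy
      · rw [hy]
        exact pair_comm' M (hcon x hx)
      · exact M.down _ _ h2.1 (by
          intro z hz
          rcases Finset.mem_insert.1 hz with h | h
          · rw [h]; exact hx
          · rw [Finset.mem_singleton.1 h]; exact hy)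
    have := h2.2 _ hmem (Finset.subset_insert _ _)
    exact hp2 (this ▸ Finset.mem_insert_self _ _)
  obtain ⟨a, ha, b, hb, hab⟩ := Finset.one_lt_card.1 h
  obtain ⟨ha1, ha2⟩ := Finset.mem_inter.1 ha
  obtain ⟨hb1, hb2⟩ := Finset.mem_inter.1 hb
  have hc1 : c ∉ F1 := fun hc1 => hpc (M.down _ _ h1.1 (by
    intro z hz
    rcases Finset.mem_insert.1 hz with h | h
    · rw [h]; exact hp1
    · rw [Finset.mem_singleton.1 h]; exact hc1))
  obtain ⟨d, hd, hd'⟩ : ∃ d ∈ F2, d ∉ ({a, b, c} : Finset (Fin n)) := by
    by_contra hcon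
    push Not at hcon
    have : F2.card ≤ ({a, b, c} : Finset (Fin n)).card := Finset.card_le_card hcon
    have := Finset.card_le_three (a := a) (b := b) (c := c)
    omega
  simp only [Finset.mem_insert, Finset.mem_singleton, not_or] at hd'
  obtain ⟨hda, hdb, hdc⟩ := hd'
  have hac : a ≠ c := fun h => hc1 (h ▸ ha1)
  have hbc : b ≠ c := fun h => hc1 (h ▸ hb1)
  have hap : a ≠ p := fun h => hp2 (h ▸ ha2)
  have hbp : b ≠ p := fun h => hp2 (h ▸ hb2)
  have hcp : c ≠ p := fun h => hp2 (h ▸ hc)
  have hdp : d ≠ p := fun h => hp2 (h ▸ hd)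
  let g : Finset (Fin n) → ℝ := fun S =>
    (GG (decide (a ∈ S)) (decide (b ∈ S)) (decide (c ∈ S)) (decide (d ∈ S))
      (decide (p ∈ S)) : ℕ)
  have hpart : IsPartialPolymatroid M g := by
    refine ⟨by simp [g, GG], fun S _ => Nat.cast_nonneg _, ?_, ?_⟩
    · intro S T _ hST
      refine Nat.cast_le.2 (GG_mono _ _ _ _ _ _ _ _ _ _ ?_ ?_ ?_ ?_ ?_) <;>
      · simp only [decide_eq_true_eq]
        exact fun h => hST h
    · intro S T hST
      have key := GG_submod (decide (a ∈ S)) (decide (b ∈ S)) (decide (c ∈ S)) (decide (d ∈ S))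
        (decide (p ∈ S)) (decide (a ∈ T)) (decide (b ∈ T)) (decide (c ∈ T)) (decide (d ∈ T))
        (decide (p ∈ T)) (by
          rintro ⟨h3, h4⟩
          rw [Bool.or_eq_true, decide_eq_true_eq, decide_eq_true_eq] at h3 h4
          exact hpc (M.down _ _ hST (by
            intro z hz
            rcases Finset.mem_insert.1 hz with h | h
            · rw [h]; exact Finset.mem_union.2 h3
            · rw [Finset.mem_singleton.1 h]; exact Finset.mem_union.2 h4)))
      show ((GG _ _ _ _ _ : ℕ) : ℝ) + ((GG _ _ _ _ _ : ℕ) : ℝ) ≤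
        ((GG _ _ _ _ _ : ℕ) : ℝ) + ((GG _ _ _ _ _ : ℕ) : ℝ)
      simp only [Finset.mem_union, Finset.mem_inter, Bool.decide_or, Bool.decide_and]
      exact_mod_cast key
  obtain ⟨f, hf, hfg⟩ := hM g hpart
  have hF2 : ∀ S : Finset (Fin n), S ⊆ {a, b, c, d} → f S = g S := fun S hS =>
    hfg S (M.down _ _ h2.1 (hS.trans (by
      intro z hz
      simp only [Finset.mem_insert, Finset.mem_singleton] at hz
      rcases hz with h | h | h | h <;> rw [h] <;> assumption)))
  have hF1 : ∀ S : Finset (Fin n), S ⊆ {a, b, p} → f S = g S := fun S hS =>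
    hfg S (M.down _ _ h1.1 (hS.trans (by
      intro z hz
      simp only [Finset.mem_insert, Finset.mem_singleton] at hz
      rcases hz with h | h | h <;> rw [h] <;> assumption)))
  have hab' := hab.symm
  have hac' := hac.symm
  have hbc' := hbc.symm
  have hda' := Ne.symm hda
  have hdb' := Ne.symm hdb
  have hdc' := Ne.symm hdc
  have hap' := hap.symm
  have hbp' := hbp.symm
  have hcp' := hcp.symm
  have hdp' := hdp.symm
  have va : f {a} = 2 := by
    rw [hF2 _ (by intro z; simp; tauto)]
    simp [g, GG, *]
  have vb : f {b} = 2 := by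
    rw [hF2 _ (by intro z; simp; tauto)]
    simp [g, GG, *]
  have vac : f {a, c} = 3 := by
    rw [hF2 _ (by intro z; simp; tauto)]
    simp [g, GG, *]
  have vbc : f {b, c} = 3 := by
    rw [hF2 _ (by intro z; simp; tauto)]
    simp [g, GG, *]
  have vad : f {a, d} = 3 := by
    rw [hF2 _ (by intro z; simp; tauto)]
    simp [g, GG, *]
  have vbd : f {b, d} = 3 := by
    rw [hF2 _ (by intro z; simp; tauto)]
    simp [g, GG, *]
  have vcd : f {c, d} = 4 := by
    rw [hF2 _ (by intro z; simp; tauto)]
    simp [g, GG, *]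
  have vabc : f {a, b, c} = 4 := by
    rw [hF2 _ (by intro z; simp; tauto)]
    simp [g, GG, *]
  have vabd : f {a, b, d} = 4 := by
    rw [hF2 _ (by intro z; simp; tauto)]
    simp [g, GG, *]
  have vp : f {p} = 1 := by
    rw [hF1 _ (by intro z; simp; tauto)]
    simp [g, GG, *]
  have vap : f {a, p} = 2 := by
    rw [hF1 _ (by intro z; simp; tauto)]
    simp [g, GG, *]
  have vbp : f {b, p} = 2 := by
    rw [hF1 _ (by intro z; simp; tauto)]
    simp [g, GG, *]
  have s1 := sub4 hf (U := {a, c, p}) (Z := {a}) (X := {a, c}) (Y := {a, p})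
    (by intro z; simp; try tauto) (by intro z; simp; try tauto)
  have s2 := sub4 hf (U := {b, c, p}) (Z := {b}) (X := {b, c}) (Y := {b, p})
    (by intro z; simp; try tauto) (by intro z; simp; try tauto)
  have s3 := sub4 hf (U := {a, b, c}) (Z := {c, p}) (X := {a, c, p}) (Y := {b, c, p})
    (by intro z; simp; try tauto) (by intro z; simp; try tauto)
  have s1' := sub4 hf (U := {a, d, p}) (Z := {a}) (X := {a, d}) (Y := {a, p})
    (by intro z; simp; try tauto) (by intro z; simp; try tauto)
  have s2' := sub4 hf (U := {b, d, p}) (Z := {b}) (X := {b, d}) (Y := {b, p})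
    (by intro z; simp; try tauto) (by intro z; simp; try tauto)
  have s3' := sub4 hf (U := {a, b, d}) (Z := {d, p}) (X := {a, d, p}) (Y := {b, d, p})
    (by intro z; simp; try tauto) (by intro z; simp; try tauto)
  have s4 := sub4 hf (U := {c, d}) (Z := {p}) (X := {c, p}) (Y := {d, p})
    (by intro z; simp; try tauto) (by intro z; simp; try tauto)
  linarith

/-! ### Simplicial vertices -/

section Dirac

open Classical

/-- The vertices. -/
noncomputable def verts (M : Scenario n) : Finset (Fin n) :=
  Finset.univ.filter fun v => M.mem {v}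

/-- The closed neighbourhood. -/
noncomputable def nb (M : Scenario n) (v : Fin n) : Finset (Fin n) :=
  Finset.univ.filter fun w => M.mem {v, w}

theorem mem_verts {M : Scenario n} {v : Fin n} : v ∈ verts M ↔ M.mem {v} := by
  simp [verts]

theorem mem_nb {M : Scenario n} {v w : Fin n} : w ∈ nb M v ↔ M.mem {v, w} := by
  simp [nb]

theorem subset_verts {M : Scenario n} {S : Finset (Fin n)} (hS : M.mem S) : S ⊆ verts M :=
  fun x hx => mem_verts.2 (M.down _ _ hS (Finset.singleton_subset_iff.2 hx))

theorem pair_mem {M : Scenario n} {S : Finset (Fin n)} (hS : M.mem S) {x y : Fin n}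
    (hx : x ∈ S) (hy : y ∈ S) : M.mem {x, y} :=
  M.down _ _ hS (by
    intro z hz
    rcases Finset.mem_insert.1 hz with h | h
    · rw [h]; exact hx
    · rw [Finset.mem_singleton.1 h]; exact hy)

/-- Simplicial vertices. -/
def Simplicial (M : Scenario n) (v : Fin n) : Prop := M.mem {v} ∧ M.mem (nb M v)

/-- Reachability avoiding `S`. -/
def Reach (M : Scenario n) (S : Finset (Fin n)) (u z : Fin n) : Prop :=
  Relation.ReflTransGen (fun z z' => M.mem {z, z'} ∧ z' ∉ S) u z

theorem reach_symm {M : Scenario n} {S : Finset (Fin n)} {u z : Fin n} (hu : u ∉ S)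
    (h : Reach M S u z) : z ∉ S ∧ Reach M S z u := by
  induction h with
  | refl => exact ⟨hu, Relation.ReflTransGen.refl⟩
  | tail _ hstep ih =>
    exact ⟨hstep.2, Relation.ReflTransGen.head ⟨pair_comm' M hstep.1, ih.1⟩ ih.2⟩

theorem side {M : Scenario n} {k : ℕ}
    (ih : ∀ M : Scenario n, AllNonContextual M → (verts M).card ≤ k →
      M.mem (verts M) ∨ ∃ v w, Simplicial M v ∧ Simplicial M w ∧ ¬ M.mem {v, w})
    (hM : AllNonContextual M) (hk : (verts M).card ≤ k + 1) {A S : Finset (Fin n)}
    (hclosed : ∀ a ∈ A, ∀ z, M.mem {a, z} → z ∈ A ∪ S)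
    (hclique : ∀ x ∈ S, ∀ y ∈ S, M.mem {x, y}) {u w : Fin n} (hu : u ∈ A) (hum : M.mem {u})
    (hw : w ∈ verts M) (hwAS : w ∉ A ∪ S) : ∃ v ∈ A, Simplicial M v := by
  have hM1 := good_restr hM (A ∪ S)
  have hcard : (verts (M.restr (A ∪ S))).card ≤ k := by
    have h1 : (verts (M.restr (A ∪ S))) ⊂ verts M := by
      refine Finset.ssubset_iff_subset_ne.2 ⟨?_, ?_⟩
      · intro v hv
        exact mem_verts.2 (mem_verts.1 hv).1
      · intro h
        rw [← h] at hw
        exact hwAS (Finset.singleton_subset_iff.1 (mem_verts.1 hw).2)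
    have := Finset.card_lt_card h1
    omega
  rcases ih _ hM1 hcard with h | ⟨v, v', hv, hv', hvv'⟩
  · refine ⟨u, hu, hum, M.down _ _ h.1 ?_⟩
    intro z hz
    have hz' := mem_nb.1 hz
    refine mem_verts.2 ⟨M.down _ _ hz' (by simp), ?_⟩
    exact Finset.singleton_subset_iff.2 (hclosed u hu z hz')
  · have hvAS : v ∈ A ∪ S := Finset.singleton_subset_iff.1 hv.1.2
    have hvAS' : v' ∈ A ∪ S := Finset.singleton_subset_iff.1 hv'.1.2
    have hup : ∀ v ∈ A, Simplicial (M.restr (A ∪ S)) v → Simplicial M v := by
      intro v hvA hv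
      refine ⟨hv.1.1, M.down _ _ hv.2.1 ?_⟩
      intro z hz
      have hz' := mem_nb.1 hz
      refine mem_nb.2 ⟨hz', ?_⟩
      intro y hy
      rcases Finset.mem_insert.1 hy with h | h
      · rw [h]; exact Finset.mem_union_left _ hvA
      · rw [Finset.mem_singleton.1 h]; exact hclosed v hvA z hz'
    by_cases hvA : v ∈ A
    · exact ⟨v, hvA, hup v hvA hv⟩
    · by_cases hvA' : v' ∈ A
      · exact ⟨v', hvA', hup v' hvA' hv'⟩
      · exfalso
        have h1 : v ∈ S := (Finset.mem_union.1 hvAS).resolve_left hvA
        have h2 : v' ∈ S := (Finset.mem_union.1 hvAS').resolve_left hvA'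
        refine hvv' ⟨hclique v h1 v' h2, ?_⟩
        intro y hy
        rcases Finset.mem_insert.1 hy with h | h
        · rw [h]; exact hvAS
        · rw [Finset.mem_singleton.1 h]; exact hvAS'

theorem dirac (k : ℕ) : ∀ M : Scenario n, AllNonContextual M → (verts M).card ≤ k →
    M.mem (verts M) ∨ ∃ v w, Simplicial M v ∧ Simplicial M w ∧ ¬ M.mem {v, w} := by
  induction k with
  | zero =>
    intro M _ hk
    left
    rw [Finset.card_eq_zero.1 (Nat.le_zero.1 hk)]
    exact M.empty_mem
  | succ k ih =>
    intro M hM hk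
    by_cases hV : M.mem (verts M)
    · exact Or.inl hV
    right
    obtain ⟨u, hu, w, hw, huw⟩ : ∃ u ∈ verts M, ∃ w ∈ verts M, ¬ M.mem {u, w} := by
      by_contra hcon
      push Not at hcon
      exact hV (clique_mem hM _ hcon)
    have hum := mem_verts.1 hu
    have hwm := mem_verts.1 hw
    have hne : u ≠ w := by
      rintro rfl
      rw [Finset.pair_eq_singleton] at huw
      exact huw hum
    -- separators
    let Sep : Finset (Fin n) → Prop := fun S => u ∉ S ∧ w ∉ S ∧ ¬ Reach M S u w
    have hex : ∃ m, ∃ S, Sep S ∧ S.card = m := by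
      refine ⟨_, Finset.univ \ {u, w}, ⟨by simp, by simp, ?_⟩, rfl⟩
      intro hr
      have : ∀ z, Reach M (Finset.univ \ {u, w}) u z → z = u := by
        intro z hz
        induction hz with
        | refl => rfl
        | @tail z z' _ hstep ih =>
          obtain ⟨h1, h2⟩ := hstep
          have h3 : z' = u ∨ z' = w := by
            by_contra hcon
            exact h2 (by simpa using hcon)
          rcases h3 with h3 | h3
          · exact h3
          · rw [ih, h3] at h1
            exact absurd h1 huw
      exact hne (this w hr).symm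
    obtain ⟨S, hS, hScard⟩ := Nat.find_spec hex
    have hmin : ∀ S', Sep S' → S.card ≤ S'.card := by
      intro S' hS'
      rw [hScard]
      exact Nat.find_min' hex ⟨S', hS', rfl⟩
    obtain ⟨huS, hwS, hnr⟩ := hS
    set A : Finset (Fin n) := Finset.univ.filter fun z => Reach M S u z with hA
    set B : Finset (Fin n) := Finset.univ.filter fun z => Reach M S w z with hB
    have memA : ∀ z, z ∈ A ↔ Reach M S u z := fun z => by simp [hA]
    have memB : ∀ z, z ∈ B ↔ Reach M S w z := fun z => by simp [hB]
    have hAS : ∀ z ∈ A, z ∉ S := fun z hz => (reach_symm huS ((memA z).1 hz)).1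
    have hBS : ∀ z ∈ B, z ∉ S := fun z hz => (reach_symm hwS ((memB z).1 hz)).1
    have hAB : ∀ a ∈ A, ∀ b ∈ B, ¬ M.mem {a, b} := by
      intro a ha b hb hab
      have h1 : Reach M S u b := ((memA a).1 ha).tail ⟨hab, hBS b hb⟩
      exact hnr (h1.trans (reach_symm hwS ((memB b).1 hb)).2)
    have hclA : ∀ a ∈ A, ∀ z, M.mem {a, z} → z ∈ A ∪ S := by
      intro a ha z haz
      by_cases hz : z ∈ S
      · exact Finset.mem_union_right _ hz
      · exact Finset.mem_union_left _ ((memA z).2 (((memA a).1 ha).tail ⟨haz, hz⟩))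
    have hclB : ∀ a ∈ B, ∀ z, M.mem {a, z} → z ∈ B ∪ S := by
      intro a ha z haz
      by_cases hz : z ∈ S
      · exact Finset.mem_union_right _ hz
      · exact Finset.mem_union_left _ ((memB z).2 (((memB a).1 ha).tail ⟨haz, hz⟩))
    have hwA : w ∉ A := fun h => hnr ((memA w).1 h)
    have huB : u ∉ B := fun h => hnr (reach_symm hwS ((memB u).1 h)).2
    have hnotsep : ∀ s ∈ S, Reach M (S.erase s) u w := by
      intro s hs
      by_contra hcon
      have h1 := hmin (S.erase s) ⟨fun h => huS (Finset.mem_of_mem_erase h),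
        fun h => hwS (Finset.mem_of_mem_erase h), hcon⟩
      have h2 := Finset.card_erase_lt_of_mem hs
      omega
    have nbrA : ∀ s ∈ S, ∃ a ∈ A, M.mem {a, s} := by
      intro s hs
      by_contra hcon
      push Not at hcon
      have : ∀ z, Reach M (S.erase s) u z → z ∈ A := by
        intro z hz
        induction hz with
        | refl => exact (memA u).2 Relation.ReflTransGen.refl
        | @tail z z' _ hstep ih =>
          obtain ⟨h1, h2⟩ := hstep
          by_cases hzs : z' = s
          · rw [hzs] at h1
            exact absurd h1 (hcon z ih)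
          · have h3 : z' ∉ S := fun h => h2 (Finset.mem_erase.2 ⟨hzs, h⟩)
            exact (memA z').2 (((memA z).1 ih).tail ⟨h1, h3⟩)
      exact hwA (this w (hnotsep s hs))
    have nbrB : ∀ s ∈ S, ∃ b ∈ B, M.mem {b, s} := by
      intro s hs
      by_contra hcon
      push Not at hcon
      have : ∀ z, Reach M (S.erase s) w z → z ∈ B := by
        intro z hz
        induction hz with
        | refl => exact (memB w).2 Relation.ReflTransGen.refl
        | @tail z z' _ hstep ih =>
          obtain ⟨h1, h2⟩ := hstep
          by_cases hzs : z' = s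
          · rw [hzs] at h1
            exact absurd h1 (hcon z ih)
          · have h3 : z' ∉ S := fun h => h2 (Finset.mem_erase.2 ⟨hzs, h⟩)
            exact (memB z').2 (((memB z).1 ih).tail ⟨h1, h3⟩)
      exact huB (this u (reach_symm (fun h => huS (Finset.mem_of_mem_erase h))
        (hnotsep s hs)).2)
    have hclique : ∀ x ∈ S, ∀ y ∈ S, M.mem {x, y} := by
      intro x hx y hy
      by_contra hxy
      obtain ⟨a0, ha0, hxa⟩ := nbrA x hx
      obtain ⟨a1, ha1, hya⟩ := nbrA y hy
      obtain ⟨b0, hb0, hyb⟩ := nbrB y hy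
      obtain ⟨c, hc, hxc⟩ := nbrB x hx
      have hAconn : Reach M S a0 a1 :=
        (reach_symm huS ((memA a0).1 ha0)).2.trans ((memA a1).1 ha1)
      have hBconn : Reach M S b0 c :=
        (reach_symm hwS ((memB b0).1 hb0)).2.trans ((memB c).1 hc)
      let Rel : Fin n → Fin n → Prop := fun z z' => M.mem {z, z'} ∧
        ((z ∈ insert x (insert y A) ∧ z' ∈ insert x (insert y A)) ∨
          (z ∈ insert y B ∧ z' ∈ insert y B))
      have pA : ∀ z, Reach M S a0 z → z ∈ A ∧ Relation.ReflTransGen Rel a0 z := by
        intro z hz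
        induction hz with
        | refl => exact ⟨ha0, Relation.ReflTransGen.refl⟩
        | @tail z z' _ hstep ih =>
          have h1 : z' ∈ A := (memA z').2 (((memA z).1 ih.1).tail hstep)
          refine ⟨h1, ih.2.tail ⟨hstep.1, Or.inl ⟨?_, ?_⟩⟩⟩
          · exact Finset.mem_insert_of_mem (Finset.mem_insert_of_mem ih.1)
          · exact Finset.mem_insert_of_mem (Finset.mem_insert_of_mem h1)
      have pB : ∀ z, Reach M S b0 z → z ∈ B ∧ Relation.ReflTransGen Rel b0 z := by
        intro z hz
        induction hz with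
        | refl => exact ⟨hb0, Relation.ReflTransGen.refl⟩
        | @tail z z' _ hstep ih =>
          have h1 : z' ∈ B := (memB z').2 (((memB z).1 ih.1).tail hstep)
          refine ⟨h1, ih.2.tail ⟨hstep.1, Or.inr ⟨?_, ?_⟩⟩⟩
          · exact Finset.mem_insert_of_mem ih.1
          · exact Finset.mem_insert_of_mem h1
      have path : Relation.ReflTransGen Rel x c := by
        refine Relation.ReflTransGen.head (b := a0) ⟨pair_comm' M hxa, Or.inl ⟨?_, ?_⟩⟩ ?_
        · exact Finset.mem_insert_self _ _
        · exact Finset.mem_insert_of_mem (Finset.mem_insert_of_mem ha0)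
        refine (pA a1 hAconn).2.trans ?_
        refine Relation.ReflTransGen.head (b := y) ⟨hya, Or.inl ⟨?_, ?_⟩⟩ ?_
        · exact Finset.mem_insert_of_mem (Finset.mem_insert_of_mem ha1)
        · exact Finset.mem_insert_of_mem (Finset.mem_insert_self _ _)
        refine Relation.ReflTransGen.head (b := b0) ⟨pair_comm' M hyb, Or.inr ⟨?_, ?_⟩⟩ ?_
        · exact Finset.mem_insert_self _ _
        · exact Finset.mem_insert_of_mem hb0
        exact (pB c hBconn).2
      exact no_two_ways hM (fun h => hBS x h hx) (fun h => hBS y h hy) hxy hAB hc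
        (pair_comm' M hxc) path
    have huA : u ∈ A := (memA u).2 Relation.ReflTransGen.refl
    have hwB : w ∈ B := (memB w).2 Relation.ReflTransGen.refl
    obtain ⟨v, hvA, hv⟩ := side ih hM hk hclA hclique huA hum hw (by
      rw [Finset.mem_union]
      rintro (h | h)
      · exact hwA h
      · exact hwS h)
    obtain ⟨v', hvB, hv'⟩ := side ih hM hk hclB hclique hwB hwm hu (by
      rw [Finset.mem_union]
      rintro (h | h)
      · exact huB h
      · exact huS h)
    exact ⟨v, v', hv, hv', hAB v hvA v' hvB⟩

theorem exists_facet {M : Scenario n} {S : Finset (Fin n)} (hS : M.mem S) :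
    ∃ F, IsFacet M F ∧ S ⊆ F := by
  obtain ⟨F, hF, hmax⟩ := Finset.exists_max_image
    (Finset.univ.filter fun F : Finset (Fin n) => M.mem F ∧ S ⊆ F) Finset.card
    ⟨S, by simp [hS]⟩
  have hF' := (Finset.mem_filter.1 hF).2
  refine ⟨F, ⟨hF'.1, fun T hT hFT => ?_⟩, hF'.2⟩
  have := hmax T (Finset.mem_filter.2 ⟨Finset.mem_univ _, hT, hF'.2.trans hFT⟩)
  exact (Finset.eq_of_subset_of_card_le hFT this).symm

theorem rip_map {v : Fin n} {F0 F : Finset (Fin n)} (hF : F = insert v F0) :
    ∀ l : List (Finset (Fin n)), l.Nodup → (∀ G ∈ l, v ∉ G) → RunningIntersection l →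
      RunningIntersection (l.map fun G => if G = F0 then F else G) := by
  intro l
  induction l with
  | nil => intro _ _ _; exact trivial
  | cons G l ih =>
    intro hnd hv hr
    rw [List.nodup_cons] at hnd
    refine ⟨ih hnd.2 (fun G' hG' => hv G' (List.mem_cons_of_mem _ hG')) hr.1, ?_⟩
    rcases hr.2 with h | ⟨H, hH, hHl⟩
    · left
      rw [h]
      rfl
    · right
      refine ⟨if H = F0 then F else H, List.mem_map.2 ⟨H, hH, rfl⟩, ?_⟩
      intro F' hF'
      obtain ⟨G', hG', rfl⟩ := List.mem_map.1 hF'
      intro x hx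
      obtain ⟨hx1, hx2⟩ := Finset.mem_inter.1 hx
      have hsub : H ⊆ if H = F0 then F else H := by
        split_ifs with h
        · rw [h, hF]; exact Finset.subset_insert _ _
        · exact Finset.Subset.refl _
      have hin : ∀ G : Finset (Fin n), x ≠ v → x ∈ (if G = F0 then F else G) → x ∈ G := by
        intro G hxv hx
        split_ifs at hx with h
        · rw [hF] at hx
          rw [h]
          exact (Finset.mem_insert.1 hx).resolve_left hxv
        · exact hx
      by_cases hxv : x = v
      · exfalso
        have e : ∀ G : Finset (Fin n), v ∉ G → x ∈ (if G = F0 then F else G) → G = F0 := by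
          intro G hvG hx
          by_contra h
          rw [if_neg h, hxv] at hx
          exact hvG hx
        have e1 := e G (hv G List.mem_cons_self) hx1
        have e2 := e G' (hv G' (List.mem_cons_of_mem _ hG')) hx2
        rw [e1, ← e2] at hnd
        exact hnd.1 hG'
      · exact hsub (hHl G' hG' (Finset.mem_inter.2 ⟨hin G hxv hx1, hin G' hxv hx2⟩))

theorem regular (k : ℕ) : ∀ M : Scenario n, AllNonContextual M → (verts M).card ≤ k →
    VorobevRegular M := by
  induction k with
  | zero =>
    intro M _ hk
    have h0 : verts M = ∅ := Finset.card_eq_zero.1 (Nat.le_zero.1 hk)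
    refine ⟨[∅], List.nodup_singleton _, ?_, trivial, Or.inl rfl⟩
    intro F
    rw [List.mem_singleton]
    constructor
    · rintro rfl
      refine ⟨M.empty_mem, fun S hS _ => ?_⟩
      have := subset_verts hS
      rw [h0] at this
      exact Finset.subset_empty.1 this
    · intro hF
      have := subset_verts hF.1
      rw [h0] at this
      exact Finset.subset_empty.1 this
  | succ k ih =>
    intro M hM hk
    rcases dirac (k + 1) M hM hk with hV | ⟨v, -, hv, -⟩
    · refine ⟨[verts M], List.nodup_singleton _, ?_, trivial, Or.inl rfl⟩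
      intro F
      rw [List.mem_singleton]
      constructor
      · rintro rfl
        exact ⟨hV, fun S hS h => Finset.Subset.antisymm (subset_verts hS) h⟩
      · intro hF
        exact (hF.2 _ hV (subset_verts hF.1)).symm
    · set F := nb M v with hFdef
      have hvF : v ∈ F := mem_nb.2 (by rw [Finset.pair_eq_singleton]; exact hv.1)
      have hsubF : ∀ S, M.mem S → v ∈ S → S ⊆ F := fun S hS hvS x hx =>
        mem_nb.2 (pair_mem hS hvS hx)
      have hFfacet : IsFacet M F := ⟨hv.2, fun S hS h =>
        Finset.Subset.antisymm (hsubF S hS (h hvF)) h⟩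
      set M' := M.restr (Finset.univ.erase v) with hM'
      have hM'good : AllNonContextual M' := good_restr hM _
      have hcard : (verts M').card ≤ k := by
        have h1 : verts M' ⊂ verts M := by
          refine Finset.ssubset_iff_subset_ne.2 ⟨?_, ?_⟩
          · intro x hx
            exact mem_verts.2 (mem_verts.1 hx).1
          · intro h
            have h2 : v ∈ verts M := mem_verts.2 hv.1
            rw [← h] at h2
            have := (mem_verts.1 h2).2 (Finset.mem_singleton_self v)
            exact Finset.notMem_erase _ _ this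
        have := Finset.card_lt_card h1
        omega
      obtain ⟨l, hnd, hmem, hrip⟩ := ih M' hM'good hcard
      have hM'mem : ∀ S, M'.mem S ↔ M.mem S ∧ v ∉ S := by
        intro S
        constructor
        · rintro ⟨h1, h2⟩
          exact ⟨h1, fun h => Finset.notMem_erase _ _ (h2 h)⟩
        · rintro ⟨h1, h2⟩
          exact ⟨h1, fun x hx => Finset.mem_erase.2 ⟨fun h => h2 (h ▸ hx), Finset.mem_univ _⟩⟩
      have hvl : ∀ G ∈ l, v ∉ G := fun G hG => ((hM'mem G).1 ((hmem G).1 hG).1).2
      have hF0 : M'.mem (F.erase v) := (hM'mem _).2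
        ⟨M.down _ _ hv.2 (Finset.erase_subset _ _), Finset.notMem_erase _ _⟩
      have hins : F = insert v (F.erase v) := (Finset.insert_erase hvF).symm
      -- facets of `M'` other than `F.erase v` are facets of `M`
      have hup : ∀ G, IsFacet M' G → G ≠ F.erase v → IsFacet M G := by
        intro G hG hne
        refine ⟨((hM'mem G).1 hG.1).1, fun S hS hGS => ?_⟩
        by_cases hvS : v ∈ S
        · exfalso
          apply hne
          refine (hG.2 _ hF0 ?_).symm
          intro x hx
          refine Finset.mem_erase.2 ⟨fun h => ((hM'mem G).1 hG.1).2 (h ▸ hx),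
            hsubF S hS hvS (hGS hx)⟩
        · exact hG.2 S ((hM'mem S).2 ⟨hS, hvS⟩) hGS
      have hdown : ∀ G, IsFacet M G → v ∉ G → IsFacet M' G := by
        intro G hG hvG
        exact ⟨(hM'mem G).2 ⟨hG.1, hvG⟩, fun S hS h => hG.2 S ((hM'mem S).1 hS).1 h⟩
      have hne0 : ∀ G, IsFacet M G → G ≠ F.erase v := by
        intro G hG h
        have h1 := hG.2 F hFfacet.1 (by rw [h]; exact Finset.erase_subset _ _)
        rw [h] at h1
        rw [h1] at hvF
        exact Finset.notMem_erase _ _ hvF
      by_cases hc : F.erase v ∈ l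
      · refine ⟨l.map fun G => if G = F.erase v then F else G, ?_, ?_, ?_⟩
        · refine List.Nodup.map_on ?_ hnd
          intro G hG G' hG' h
          by_cases h1 : G = F.erase v
          · by_cases h2 : G' = F.erase v
            · rw [h1, h2]
            · rw [if_pos h1, if_neg h2] at h
              exact absurd (h ▸ hvF) (hvl G' hG')
          · by_cases h2 : G' = F.erase v
            · rw [if_neg h1, if_pos h2] at h
              exact absurd (h ▸ hvF) (hvl G hG)
            · rw [if_neg h1, if_neg h2] at h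
              exact h
        · intro G
          rw [List.mem_map]
          constructor
          · rintro ⟨G', hG', rfl⟩
            split_ifs with h
            · exact hFfacet
            · exact hup G' ((hmem G').1 hG') h
          · intro hG
            by_cases hvG : v ∈ G
            · refine ⟨F.erase v, hc, ?_⟩
              rw [if_pos rfl]
              exact hG.2 F hFfacet.1 (hsubF G hG.1 hvG)
            · exact ⟨G, (hmem G).2 (hdown G hG hvG), if_neg (hne0 G hG)⟩
        · exact rip_map hins l hnd hvl hrip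
      · refine ⟨F :: l, ?_, ?_, hrip, ?_⟩
        · rw [List.nodup_cons]
          exact ⟨fun h => hvl F h hvF, hnd⟩
        · intro G
          rw [List.mem_cons]
          constructor
          · rintro (h | h)
            · rw [h]; exact hFfacet
            · exact hup G ((hmem G).1 h) fun h' => hc (h' ▸ h)
          · intro hG
            by_cases hvG : v ∈ G
            · left
              exact (hG.2 F hFfacet.1 (hsubF G hG.1 hvG)).symm
            · right
              exact (hmem G).2 (hdown G hG hvG)
        · right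
          obtain ⟨G, hG, hFG⟩ := exists_facet hF0
          refine ⟨G, (hmem G).2 hG, ?_⟩
          intro F' hF' x hx
          obtain ⟨hx1, hx2⟩ := Finset.mem_inter.1 hx
          exact hFG (Finset.mem_erase.2 ⟨fun h => hvl F' hF' (h ▸ hx2), hx1⟩)

end Dirac

end Q217.Poly
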