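import Pool.Agent.Q217.Poly.Pos
import Pool.Agent.Q217.Poly.Struct

set_option autoImplicit false

namespace Q217.Poly

variable {n : ℕ}

theorem sub4' {α : Type} [DecidableEq α] {f : Finset α → ℝ} (hf : IsPolymatroid f)
    {U Z X Y : Finset α} (hU : U ⊆ X ∪ Y) (hZ : Z ⊆ X ∩ Y) : f U + f Z ≤ f X + f Y :=
  (add_le_add (hf.mono _ _ hU) (hf.mono _ _ hZ)).trans (hf.submod X Y)

/-- One facet. -/
theorem single {M : Scenario n} {g : Finset (Fin n) → ℝ} (hg : IsPartialPolymatroid M g)
    {F : Finset (Fin n)} (hF : M.mem F) :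
    ∃ f : Finset (Amb n) → ℝ, IsPolymatroid f ∧ (∀ S, f S = f (S ∩ EF F)) ∧ Good g f F := by
  by_cases h3 : F.card = 3
  · obtain ⟨a, b, c, hab, hac, hbc, rfl⟩ := Finset.card_eq_three.1 h3
    exact triangle hg hab hac hbc hF
  · let π : Finset (Amb n) → Finset (Fin n) := fun S => F.filter fun v => Sum.inl v ∈ S
    have hπF : ∀ S, π S ⊆ F := fun S => Finset.filter_subset _ _
    have hπmem : ∀ S, M.mem (π S) := fun S => M.down _ _ hF (hπF S)
    have hmono : ∀ S T, S ⊆ T → π S ⊆ π T := by
      intro S T h x hx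
      obtain ⟨h1, h2⟩ := Finset.mem_filter.1 hx
      exact Finset.mem_filter.2 ⟨h1, h h2⟩
    refine ⟨fun S => g (π S), ⟨?_, fun S => hg.nonneg _ (hπmem S),
      fun S T h => hg.mono _ _ (hπmem T) (hmono S T h), fun S T => ?_⟩, fun S => ?_, ?_, ?_⟩
    · show g (π ∅) = 0
      have : π ∅ = ∅ := by
        ext x; simp [π]
      rw [this, hg.empty]
    · have e1 : π (S ∪ T) = π S ∪ π T := by
        ext x; simp only [π, Finset.mem_filter, Finset.mem_union]; tauto
      have e2 : π (S ∩ T) = π S ∩ π T := by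
        ext x; simp only [π, Finset.mem_filter, Finset.mem_inter]; tauto
      show g (π (S ∪ T)) + g (π (S ∩ T)) ≤ g (π S) + g (π T)
      rw [e1, e2]
      exact hg.submod _ _ (M.down _ _ hF (Finset.union_subset (hπF S) (hπF T)))
    · show g (π S) = g (π (S ∩ EF F))
      congr 1
      ext x
      simp only [π, Finset.mem_filter, Finset.mem_inter]
      constructor
      · rintro ⟨h1, h2⟩
        exact ⟨h1, h2, inl_mem_EF.2 h1⟩
      · rintro ⟨h1, h2, _⟩
        exact ⟨h1, h2⟩
    · intro S hS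
      show g (π (up S)) = g S
      congr 1
      ext x
      simp only [π, Finset.mem_filter, inl_mem_up]
      exact ⟨fun h => h.2, fun h => ⟨hS h, h⟩⟩
    · exact fun h => absurd h h3

/-- The ground set of a list of facets. -/
def EL : List (Finset (Fin n)) → Finset (Amb n)
  | [] => ∅
  | F :: l => EL l ∪ EF F

theorem mem_EL {l : List (Finset (Fin n))} {x : Amb n} : x ∈ EL l ↔ ∃ F ∈ l, x ∈ EF F := by
  induction l with
  | nil => simp [EL]
  | cons F l ih =>
    simp only [EL, Finset.mem_union, ih, List.mem_cons, exists_eq_or_imp]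
    exact or_comm

/-- Values on the lattice used for gluing along an edge. -/
theorem edge_val {f : Finset (Amb n) → ℝ} {g : Finset (Fin n) → ℝ} (hf : IsPolymatroid f)
    {F : Finset (Fin n)} (hF3 : F.card = 3) (hG : Good g f F) {a b : Fin n} (ha : a ∈ F)
    (hb : b ∈ F) (hab : a ≠ b) :
    f {Sum.inr {a, b}} = g {a} + g {b} - g {a, b} ∧
    f {Sum.inl a, Sum.inr {a, b}} = g {a} ∧ f {Sum.inl b, Sum.inr {a, b}} = g {b} ∧
    f {Sum.inl a, Sum.inl b, Sum.inr {a, b}} = g {a, b} ∧
    f {Sum.inl a} = g {a} ∧ f {Sum.inl b} = g {b} ∧ f {Sum.inl a, Sum.inl b} = g {a, b} := by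
  obtain ⟨h1, h2⟩ := hG.z hF3 a ha b hb hab
  obtain ⟨h3, h4⟩ := hG.z hF3 b hb a ha hab.symm
  rw [Finset.pair_comm b a] at h4
  have v1 : f {Sum.inl a} = g {a} := by
    have := hG.val {a} (Finset.singleton_subset_iff.2 ha)
    rwa [show (up ({a} : Finset (Fin n)) : Finset (Amb n)) = {Sum.inl a} by
      simp [up]] at this
  have v2 : f {Sum.inl b} = g {b} := by
    have := hG.val {b} (Finset.singleton_subset_iff.2 hb)
    rwa [show (up ({b} : Finset (Fin n)) : Finset (Amb n)) = {Sum.inl b} by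
      simp [up]] at this
  have v3 : f {Sum.inl a, Sum.inl b} = g {a, b} := by
    have := hG.val {a, b} (by
      intro z hz
      rcases Finset.mem_insert.1 hz with h | h
      · rw [h]; exact ha
      · rw [Finset.mem_singleton.1 h]; exact hb)
    rwa [show (up ({a, b} : Finset (Fin n)) : Finset (Amb n)) = {Sum.inl a, Sum.inl b} by
      simp [up]] at this
  refine ⟨h1, h2, h4, ?_, v1, v2, v3⟩
  apply le_antisymm
  · have s := sub4' hf (U := {Sum.inl a, Sum.inl b, Sum.inr {a, b}}) (Z := {Sum.inl a})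
      (X := {Sum.inl a, Sum.inl b}) (Y := {Sum.inl a, Sum.inr {a, b}})
      (by intro z; simp; try tauto) (by intro z; simp; try tauto)
    linarith
  · rw [← v3]
    apply hf.mono
    intro z; simp; tauto

/-- The gluing lattice for an edge. -/
def EdgeL (a b : Fin n) : Finset (Finset (Amb n)) :=
  ({Sum.inl a, Sum.inl b, Sum.inr {a, b}} : Finset (Amb n)).powerset.filter
    fun Y => Y = ∅ ∨ Sum.inr {a, b} ∈ Y

theorem mem_EdgeL {a b : Fin n} {Y : Finset (Amb n)} : Y ∈ EdgeL a b ↔
    Y ⊆ {Sum.inl a, Sum.inl b, Sum.inr {a, b}} ∧ (Y = ∅ ∨ Sum.inr {a, b} ∈ Y) := by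
  simp [EdgeL]

/-- The values on the gluing lattice. -/
def edgeW (ga gb gab : ℝ) (x y : Prop) [Decidable x] [Decidable y] : ℝ :=
  if x then (if y then gab else ga) else (if y then gb else ga + gb - gab)

theorem edge_fam {f : Finset (Amb n) → ℝ} {g : Finset (Fin n) → ℝ} (hf : IsPolymatroid f)
    {F : Finset (Fin n)} (hF3 : F.card = 3) (hG : Good g f F) {a b : Fin n} (ha : a ∈ F)
    (hb : b ∈ F) (hab : a ≠ b) {Y : Finset (Amb n)}
    (hY : Y ⊆ {Sum.inl a, Sum.inl b, Sum.inr {a, b}}) (hz : Sum.inr {a, b} ∈ Y) :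
    f Y = edgeW (g {a}) (g {b}) (g {a, b}) (Sum.inl a ∈ Y) (Sum.inl b ∈ Y) := by
  obtain ⟨v1, v2, v3, v4, -, -, -⟩ := edge_val hf hF3 hG ha hb hab
  have hY' : ∀ T : Finset (Amb n), T ⊆ {Sum.inl a, Sum.inl b, Sum.inr {a, b}} →
      (Sum.inl a ∈ Y ↔ Sum.inl a ∈ T) → (Sum.inl b ∈ Y ↔ Sum.inl b ∈ T) →
      Sum.inr {a, b} ∈ T → Y = T := by
    intro T hT h1 h2 h3
    ext x
    constructor
    · intro hx
      have h := hY hx
      simp only [Finset.mem_insert, Finset.mem_singleton] at h
      rcases h with h | h | h <;> rw [h] at hx ⊢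
      · exact h1.1 hx
      · exact h2.1 hx
      · exact h3
    · intro hx
      have h := hT hx
      simp only [Finset.mem_insert, Finset.mem_singleton] at h
      rcases h with h | h | h <;> rw [h] at hx ⊢
      · exact h1.2 hx
      · exact h2.2 hx
      · exact hz
  unfold edgeW
  by_cases h1 : Sum.inl a ∈ Y <;> by_cases h2 : Sum.inl b ∈ Y
  · rw [if_pos h1, if_pos h2, ← v4]
    rw [hY' {Sum.inl a, Sum.inl b, Sum.inr {a, b}} (by simp) (by simp [h1]) (by simp [h2])
      (by simp)]
  · rw [if_pos h1, if_neg h2, ← v2]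
    rw [hY' {Sum.inl a, Sum.inr {a, b}} (by intro z; simp; tauto) (by simp [h1])
      (by simp [h2, hab.symm]) (by simp)]
  · rw [if_neg h1, if_pos h2, ← v3]
    rw [hY' {Sum.inl b, Sum.inr {a, b}} (by intro z; simp; tauto) (by simp [h1, hab])
      (by simp [h2]) (by simp)]
  · rw [if_neg h1, if_neg h2, ← v1]
    rw [hY' {Sum.inr {a, b}} (by intro z; simp; tauto) (by simp [h1])
      (by simp [h2]) (by simp)]

theorem edge_modular (ga gb gab : ℝ) (x y x' y' : Prop) [Decidable x] [Decidable y]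
    [Decidable x'] [Decidable y'] [Decidable (x ∨ x')] [Decidable (y ∨ y')]
    [Decidable (x ∧ x')] [Decidable (y ∧ y')] :
    edgeW ga gb gab (x ∨ x') (y ∨ y') + edgeW ga gb gab (x ∧ x') (y ∧ y') =
      edgeW ga gb gab x y + edgeW ga gb gab x' y' := by
  unfold edgeW
  by_cases hx : x <;> by_cases hy : y <;> by_cases hx' : x' <;> by_cases hy' : y' <;>
    simp [hx, hy, hx', hy'] <;> try ring

theorem edge_closure {f : Finset (Amb n) → ℝ} {g : Finset (Fin n) → ℝ} (hf : IsPolymatroid f)
    {F : Finset (Fin n)} (hF3 : F.card = 3) (hG : Good g f F) {a b : Fin n} (ha : a ∈ F)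
    (hb : b ∈ F) (hab : a ≠ b) {X : Finset (Amb n)}
    (hX : X ⊆ {Sum.inl a, Sum.inl b, Sum.inr {a, b}}) (hne : X ≠ ∅) :
    f (insert (Sum.inr {a, b}) X) = f X := by
  by_cases hz : Sum.inr {a, b} ∈ X
  · rw [Finset.insert_eq_of_mem hz]
  obtain ⟨-, v2, v3, v4, v5, v6, v7⟩ := edge_val hf hF3 hG ha hb hab
  have hX' : ∀ T : Finset (Amb n), T ⊆ {Sum.inl a, Sum.inl b} →
      (Sum.inl a ∈ X ↔ Sum.inl a ∈ T) → (Sum.inl b ∈ X ↔ Sum.inl b ∈ T) → X = T := by
    intro T hT h1 h2
    ext x
    constructor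
    · intro hx
      have h := hX hx
      simp only [Finset.mem_insert, Finset.mem_singleton] at h
      rcases h with h | h | h <;> rw [h] at hx ⊢
      · exact h1.1 hx
      · exact h2.1 hx
      · exact absurd hx hz
    · intro hx
      have h := hT hx
      simp only [Finset.mem_insert, Finset.mem_singleton] at h
      rcases h with h | h <;> rw [h] at hx ⊢
      · exact h1.2 hx
      · exact h2.2 hx
  by_cases h1 : Sum.inl a ∈ X <;> by_cases h2 : Sum.inl b ∈ X
  · have e := hX' {Sum.inl a, Sum.inl b} (by simp) (by simp [h1]) (by simp [h2])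
    rw [e, v7, ← v4]
    congr 1
    ext z; simp; tauto
  · have e := hX' {Sum.inl a} (by simp) (by simp [h1]) (by simp [h2, hab.symm])
    rw [e, v5, ← v2]
    congr 1
    ext z; simp; tauto
  · have e := hX' {Sum.inl b} (by simp) (by simp [h1, hab]) (by simp [h2])
    rw [e, v6, ← v3]
    congr 1
    ext z; simp; tauto
  · exact absurd (hX' ∅ (by simp) (by simp [h1]) (by simp [h2])) hne

/-- Gluing a further facet. -/
theorem glue {g : Finset (Fin n) → ℝ} {l : List (Finset (Fin n))} {G : Finset (Fin n)}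
    {f1 f2 : Finset (Amb n) → ℝ} (h1 : IsPolymatroid f1) (h2 : IsPolymatroid f2)
    (hE1 : ∀ S, f1 S = f1 (S ∩ EL l)) (hE2 : ∀ S, f2 S = f2 (S ∩ EF G))
    (hg1 : ∀ F ∈ l, Good g f1 F) (hg2 : Good g f2 G) (hGl : G ∉ l)
    (hr : l = [] ∨ ∃ G' ∈ l, ∀ F' ∈ l, G ∩ F' ⊆ G')
    (hcard : ∀ F ∈ l, 2 ≤ (G ∩ F).card → G.card = 3 ∧ F.card = 3) :
    ∃ f : Finset (Amb n) → ℝ, IsPolymatroid f ∧ (∀ S, f S = f (S ∩ (EL l ∪ EF G))) ∧
      (∀ S, S ⊆ EL l → f S = f1 S) ∧ (∀ S, S ⊆ EF G → f S = f2 S) := by
  rcases hr with rfl | ⟨G', hG', hGG⟩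
  · refine amalgam h1 h2 hE1 hE2 {∅} (by simp) ?_ ?_ ?_ ?_ ?_
    · intro Y hY Y' hY'
      rw [Finset.mem_singleton] at *
      rw [hY, hY', Finset.empty_union]
    · intro Y hY Y' hY'
      rw [Finset.mem_singleton] at *
      rw [hY, hY', Finset.empty_inter]
    · intro Y hY
      rw [Finset.mem_singleton.1 hY, h1.empty, h2.empty]
    · intro Y hY Y' hY'
      rw [Finset.mem_singleton.1 hY, Finset.mem_singleton.1 hY']
      simp
    · intro X hX
      have : X = ∅ := by
        rw [← Finset.subset_empty]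
        refine hX.trans ?_
        simp [EL]
      exact ⟨∅, by simp, by rw [this], by rw [this], by rw [this]⟩
  · have hinl : ∀ v, (Sum.inl v : Amb n) ∈ EL l ∩ EF G → v ∈ G ∩ G' := by
      intro v hv
      obtain ⟨h3, h4⟩ := Finset.mem_inter.1 hv
      obtain ⟨F, hF, hvF⟩ := mem_EL.1 h3
      rw [inl_mem_EF] at hvF h4
      exact Finset.mem_inter.2 ⟨h4, hGG F hF (Finset.mem_inter.2 ⟨h4, hvF⟩)⟩
    have hinr : ∀ e, (Sum.inr e : Amb n) ∈ EL l ∩ EF G → e ⊆ G ∩ G' ∧ e.card = 2 := by
      intro e he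
      obtain ⟨h3, h4⟩ := Finset.mem_inter.1 he
      obtain ⟨F, hF, hvF⟩ := mem_EL.1 h3
      rw [inr_mem_EF] at hvF h4
      refine ⟨fun v hv => Finset.mem_inter.2 ⟨h4.2.1 hv,
        hGG F hF (Finset.mem_inter.2 ⟨h4.2.1 hv, hvF.2.1 hv⟩)⟩, h4.2.2⟩
    have hval1 : ∀ S, S ⊆ G ∩ G' → f1 (up S) = g S := fun S hS =>
      (hg1 G' hG').val S (hS.trans Finset.inter_subset_right)
    have hval2 : ∀ S, S ⊆ G ∩ G' → f2 (up S) = g S := fun S hS =>
      hg2.val S (hS.trans Finset.inter_subset_left)
    by_cases hT : 2 ≤ (G ∩ G').card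
    · obtain ⟨hG3, hG'3⟩ := hcard G' hG' hT
      have hT2 : (G ∩ G').card = 2 := by
        have h3 : (G ∩ G').card ≤ 3 := by
          rw [← hG3]; exact Finset.card_le_card Finset.inter_subset_left
        by_contra hcon
        have h4 : (G ∩ G').card = 3 := by omega
        have e1 := Finset.eq_of_subset_of_card_le (Finset.inter_subset_left : G ∩ G' ⊆ G)
          (by omega)
        have e2 := Finset.eq_of_subset_of_card_le (Finset.inter_subset_right : G ∩ G' ⊆ G')
          (by omega)
        exact hGl (by rw [← e1, e2]; exact hG')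
      obtain ⟨a, b, hab, habT⟩ := Finset.card_eq_two.1 hT2
      have haT : a ∈ G ∩ G' := by rw [habT]; simp
      have hbT : b ∈ G ∩ G' := by rw [habT]; simp
      obtain ⟨haG, haG'⟩ := Finset.mem_inter.1 haT
      obtain ⟨hbG, hbG'⟩ := Finset.mem_inter.1 hbT
      have hsub : EL l ∩ EF G ⊆ {Sum.inl a, Sum.inl b, Sum.inr {a, b}} := by
        intro x hx
        rcases x with v | e
        · have := hinl v hx
          rw [habT] at this
          simpa using this
        · obtain ⟨h3, h4⟩ := hinr e hx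
          rw [habT] at h3
          have : e = {a, b} := Finset.eq_of_subset_of_card_le h3 (by
            rw [h4, Finset.card_pair hab])
          rw [this]
          simp
      have F1 := fun {Y : Finset (Amb n)} (hY) (hz) =>
        edge_fam (Y := Y) h1 hG'3 (hg1 G' hG') haG' hbG' hab hY hz
      have F2 := fun {Y : Finset (Amb n)} (hY) (hz) =>
        edge_fam (Y := Y) h2 hG3 hg2 haG hbG hab hY hz
      have C1 := fun {X : Finset (Amb n)} (hX) (hne) =>
        edge_closure (X := X) h1 hG'3 (hg1 G' hG') haG' hbG' hab hX hne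
      have C2 := fun {X : Finset (Amb n)} (hX) (hne) =>
        edge_closure (X := X) h2 hG3 hg2 haG hbG hab hX hne
      refine amalgam h1 h2 hE1 hE2 (EdgeL a b) ?_ ?_ ?_ ?_ ?_ ?_
      · exact mem_EdgeL.2 ⟨Finset.empty_subset _, Or.inl rfl⟩
      · intro Y hY Y' hY'
        rw [mem_EdgeL] at *
        refine ⟨Finset.union_subset hY.1 hY'.1, ?_⟩
        rcases hY.2 with h | h
        · rw [h, Finset.empty_union]
          exact hY'.2
        · exact Or.inr (Finset.mem_union_left _ h)
      · intro Y hY Y' hY'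
        rw [mem_EdgeL] at *
        refine ⟨Finset.inter_subset_left.trans hY.1, ?_⟩
        rcases hY.2 with h | h
        · left; rw [h, Finset.empty_inter]
        · rcases hY'.2 with h' | h'
          · left; rw [h', Finset.inter_empty]
          · exact Or.inr (Finset.mem_inter.2 ⟨h, h'⟩)
      · intro Y hY
        rw [mem_EdgeL] at hY
        rcases hY.2 with h | h
        · rw [h, h1.empty, h2.empty]
        · rw [F1 hY.1 h, F2 hY.1 h]
      · intro Y hY Y' hY'
        rw [mem_EdgeL] at hY hY'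
        rcases hY.2 with h | h
        · rw [h, Finset.empty_union, Finset.empty_inter, add_comm]
        · rcases hY'.2 with h' | h'
          · rw [h', Finset.union_empty, Finset.inter_empty]
          · rw [F1 hY.1 h, F1 hY'.1 h', F1 (Finset.union_subset hY.1 hY'.1)
              (Finset.mem_union_left _ h), F1 (Finset.inter_subset_left.trans hY.1)
              (Finset.mem_inter.2 ⟨h, h'⟩)]
            simp only [Finset.mem_union, Finset.mem_inter]
            exact edge_modular _ _ _ _ _ _ _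
      · intro X hX
        by_cases hne : X = ∅
        · exact ⟨∅, mem_EdgeL.2 ⟨Finset.empty_subset _, Or.inl rfl⟩, by rw [hne], by rw [hne],
            by rw [hne]⟩
        · have hX3 := hX.trans hsub
          refine ⟨insert (Sum.inr {a, b}) X, mem_EdgeL.2 ⟨?_, Or.inr
            (Finset.mem_insert_self _ _)⟩, Finset.subset_insert _ _, C1 hX3 hne, C2 hX3 hne⟩
          exact Finset.insert_subset (by simp) hX3
    · have hsub : EL l ∩ EF G ⊆ up (G ∩ G') := by
        intro x hx
        rcases x with v | e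
        · exact inl_mem_up.2 (hinl v hx)
        · exfalso
          obtain ⟨h3, h4⟩ := hinr e hx
          have := Finset.card_le_card h3
          omega
      have hupcard : ∀ X : Finset (Amb n), X ⊆ up (G ∩ G') → X = ∅ ∨ X = up (G ∩ G') := by
        intro X hX
        by_cases hne : X = ∅
        · exact Or.inl hne
        · right
          refine Finset.eq_of_subset_of_card_le hX ?_
          have h3 : (up (G ∩ G')).card ≤ 1 := by
            rw [up, Finset.card_map]
            omega
          have h4 : 0 < X.card := Finset.card_pos.2 (Finset.nonempty_iff_ne_empty.2 hne)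
          omega
      have hL : ∀ Y, Y ∈ ({∅, up (G ∩ G')} : Finset (Finset (Amb n))) → Y = ∅ ∨
          Y = up (G ∩ G') := by
        intro Y hY
        simpa using hY
      refine amalgam h1 h2 hE1 hE2 {∅, up (G ∩ G')} (by simp) ?_ ?_ ?_ ?_ ?_
      · intro Y hY Y' hY'
        rcases hL Y hY with rfl | rfl
        · rw [Finset.empty_union]; exact hY'
        · rcases hL Y' hY' with rfl | rfl
          · rw [Finset.union_empty]; exact hY
          · rw [Finset.union_self]; exact hY
      · intro Y hY Y' hY'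
        rcases hL Y hY with rfl | rfl
        · rw [Finset.empty_inter]; exact hY
        · rcases hL Y' hY' with rfl | rfl
          · rw [Finset.inter_empty]; exact hY'
          · rw [Finset.inter_self]; exact hY
      · intro Y hY
        rcases hL Y hY with rfl | rfl
        · rw [h1.empty, h2.empty]
        · rw [hval1 _ (Finset.Subset.refl _), hval2 _ (Finset.Subset.refl _)]
      · intro Y hY Y' hY'
        rcases hL Y hY with rfl | rfl
        · rw [Finset.empty_union, Finset.empty_inter, add_comm]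
        · rcases hL Y' hY' with rfl | rfl
          · rw [Finset.union_empty, Finset.inter_empty]
          · rw [Finset.union_self, Finset.inter_self]
      · intro X hX
        refine ⟨X, ?_, Finset.Subset.refl _, rfl, rfl⟩
        rcases hupcard X (hX.trans hsub) with h | h <;> rw [h] <;> simp

/-- Gluing all facets. -/
theorem glue_all {M : Scenario n} {g : Finset (Fin n) → ℝ} (hg : IsPartialPolymatroid M g)
    (l : List (Finset (Fin n))) : l.Nodup → (∀ F ∈ l, M.mem F) → RunningIntersection l →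
    (∀ F ∈ l, ∀ F' ∈ l, F ≠ F' → 2 ≤ (F ∩ F').card → F.card = 3 ∧ F'.card = 3) →
    ∃ f : Finset (Amb n) → ℝ, IsPolymatroid f ∧ (∀ S, f S = f (S ∩ EL l)) ∧
      ∀ F ∈ l, Good g f F := by
  induction l with
  | nil =>
    intro _ _ _ _
    exact ⟨fun _ => 0, ⟨rfl, fun _ => le_rfl, fun _ _ _ => le_rfl, fun _ _ => le_rfl⟩,
      fun _ => rfl, fun F hF => absurd hF (List.not_mem_nil)⟩
  | cons G l ih =>
    intro hnd hmem hrip hcard
    rw [List.nodup_cons] at hnd
    obtain ⟨f1, h1, hE1, hg1⟩ := ih hnd.2 (fun F hF => hmem F (List.mem_cons_of_mem _ hF)) hrip.1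
      (fun F hF F' hF' => hcard F (List.mem_cons_of_mem _ hF) F' (List.mem_cons_of_mem _ hF'))
    obtain ⟨f2, h2, hE2, hg2⟩ := single hg (hmem G List.mem_cons_self)
    obtain ⟨f, hf, hfE, hf1, hf2⟩ := glue h1 h2 hE1 hE2 hg1 hg2 hnd.1 hrip.2
      (fun F hF h => hcard G List.mem_cons_self F (List.mem_cons_of_mem _ hF)
        (fun h' => hnd.1 (h' ▸ hF)) h)
    refine ⟨f, hf, hfE, fun F hF => ?_⟩
    rcases List.mem_cons.1 hF with rfl | hF
    · exact hg2.congr fun S hS => hf2 S hS
    · refine (hg1 F hF).congr fun S hS => hf1 S (hS.trans fun x hx => mem_EL.2 ⟨F, hF, hx⟩)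

/-- Sufficiency. -/
theorem sufficient {M : Scenario n} (hreg : VorobevRegular M)
    (hcard : ∀ F F', IsFacet M F → IsFacet M F' → F ≠ F' → 2 ≤ (F ∩ F').card →
      F.card = 3 ∧ F'.card = 3) : AllNonContextual M := by
  intro g hg
  obtain ⟨l, hnd, hl, hrip⟩ := hreg
  obtain ⟨f, hf, -, hgood⟩ := glue_all hg l hnd (fun F hF => ((hl F).1 hF).1) hrip
    (fun F hF F' hF' => hcard F F' ((hl F).1 hF) ((hl F').1 hF'))
  refine ⟨fun S => f (up S), ⟨?_, fun S => hf.nonneg _, fun S T h => hf.mono _ _ ?_,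
    fun S T => ?_⟩, fun S hS => ?_⟩
  · show f (up ∅) = 0
    rw [show (up ∅ : Finset (Amb n)) = ∅ by simp [up], hf.empty]
  · exact Finset.map_subset_map.2 h
  · show f (up (S ∪ T)) + f (up (S ∩ T)) ≤ f (up S) + f (up T)
    rw [show up (S ∪ T) = up S ∪ up T from Finset.map_union _ _,
      show up (S ∩ T) = up S ∩ up T from Finset.map_inter _ _]
    exact hf.submod _ _
  · obtain ⟨F, hF, hSF⟩ := exists_facet hS
    exact (hgood F ((hl F).2 hF)).val S hSF

/-- The characterization. -/
theorem characterization (M : Scenario n) : AllNonContextual M ↔ VorobevRegular M ∧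
    ∀ F F', IsFacet M F → IsFacet M F' → F ≠ F' → 2 ≤ (F ∩ F').card →
      F.card = 3 ∧ F'.card = 3 := by
  constructor
  · intro hM
    refine ⟨regular _ M hM le_rfl, fun F F' hF hF' hne h => ?_⟩
    have key : ∀ F F', IsFacet M F → IsFacet M F' → F ≠ F' → 2 ≤ (F ∩ F').card →
        F'.card = 3 := by
      intro F F' hF hF' hne h
      have h1 := facet_card_le hM hF hF' hne h
      have h2 : (F ∩ F').card < F'.card := by
        refine Finset.card_lt_card (Finset.ssubset_iff_subset_ne.2
          ⟨Finset.inter_subset_right, fun he => ?_⟩)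
        exact hne (hF'.2 F hF.1 (by rw [← he]; exact Finset.inter_subset_left))
      omega
    exact ⟨key F' F hF' hF hne.symm (by rwa [Finset.inter_comm]), key F F' hF hF' hne h⟩
  · rintro ⟨h1, h2⟩
    exact sufficient h1 h2

end Q217.Poly
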